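import Mathlib

open Set Topology Cardinal

universe u v w

namespace Pool.Agent.SplitEberlein

/-- A map into a normed space is weakly continuous. -/
def WCont {X : Type u} [TopologicalSpace X] {E : Type w} [NormedAddCommGroup E]
    [NormedSpace ℝ E] (f : X → E) : Prop :=
  ∀ φ : StrongDual ℝ E, Continuous fun x => φ (f x)

section FA

variable {E : Type w} [NormedAddCommGroup E] [NormedSpace ℝ E]

lemma exists_functional_of_notMem (p : Submodule ℝ E) {v : E} (hv : v ∉ closure (p : Set E)) :
    ∃ φ : StrongDual ℝ E, (∀ x ∈ p, φ x = 0) ∧ φ v ≠ 0 := by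
  have hconv : Convex ℝ (closure (p : Set E)) := p.convex.closure
  obtain ⟨φ, c, hc, hcv⟩ := geometric_hahn_banach_closed_point hconv isClosed_closure hv
  have h0 : (0 : ℝ) < c := by
    have := hc 0 (subset_closure p.zero_mem)
    simpa using this
  refine ⟨φ, ?_, ?_⟩
  · intro x hx
    by_contra hne
    have h1 : φ ((c / φ x) • x) < c := hc _ (subset_closure (p.smul_mem _ hx))
    rw [map_smul, smul_eq_mul, div_mul_cancel₀ _ hne] at h1
    exact lt_irrefl _ h1
  · exact (lt_trans h0 hcv).ne'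

lemma exists_functionals {ι : Type u} (s : ι → E) :
    ∃ φ : (ι →₀ ℚ) → StrongDual ℝ E,
      ∀ a ∈ closure (Submodule.span ℝ (range s) : Set E),
      ∀ b ∈ closure (Submodule.span ℝ (range s) : Set E), a ≠ b → ∃ q, φ q a ≠ φ q b := by
  classical
  let e : (ι →₀ ℚ) → E := fun q => q.sum fun i r => (r : ℝ) • s i
  have e_add : ∀ p q, e (p + q) = e p + e q := by
    intro p q
    refine Finsupp.sum_add_index' ?_ ?_
    · intro i; simp
    · intro i a b; rw [Rat.cast_add, add_smul]
  have e_smul : ∀ (t : ℚ) p, e (t • p) = (t : ℝ) • e p := by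
    intro t p
    show (t • p).sum _ = (t : ℝ) • p.sum _
    rw [Finsupp.sum_smul_index' (by intro i; simp), Finsupp.smul_sum]
    refine Finsupp.sum_congr ?_
    intro i _
    rw [smul_eq_mul, Rat.cast_mul, mul_smul]
  have hcl_add : ∀ a ∈ closure (range e), ∀ b ∈ closure (range e), a + b ∈ closure (range e) := by
    intro a ha b hb
    refine map_mem_closure₂ (f := fun a b : E => a + b) continuous_add ha hb ?_
    rintro _ ⟨p, rfl⟩ _ ⟨q, rfl⟩
    exact ⟨p + q, e_add p q⟩
  have hcl_smul : ∀ (t : ℝ), ∀ a ∈ closure (range e), t • a ∈ closure (range e) := by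
    intro t a ha
    have ht : t ∈ closure (range ((↑) : ℚ → ℝ)) := Rat.denseRange_cast t
    refine map_mem_closure₂ (f := fun (t : ℝ) (a : E) => t • a) continuous_smul ht ha ?_
    rintro _ ⟨p, rfl⟩ _ ⟨q, rfl⟩
    exact ⟨p • q, e_smul p q⟩
  have hspan : (Submodule.span ℝ (range s) : Set E) ⊆ closure (range e) := by
    let P : Submodule ℝ E :=
      { carrier := closure (range e)
        add_mem' := fun {a b} ha hb => hcl_add a ha b hb
        zero_mem' := subset_closure ⟨0, by simp [e]⟩
        smul_mem' := fun t a ha => hcl_smul t a ha }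
    have : Submodule.span ℝ (range s) ≤ P := by
      rw [Submodule.span_le]
      rintro _ ⟨i, rfl⟩
      refine subset_closure ⟨Finsupp.single i 1, ?_⟩
      show (Finsupp.single i (1 : ℚ)).sum _ = s i
      rw [Finsupp.sum_single_index (by simp)]
      simp
    exact this
  have hspan' : closure (Submodule.span ℝ (range s) : Set E) ⊆ closure (range e) :=
    closure_minimal hspan isClosed_closure
  have hφ : ∀ q : (ι →₀ ℚ), ∃ g : StrongDual ℝ E, ‖g‖ ≤ 1 ∧ g (e q) = ‖e q‖ := fun q =>
    exists_dual_vector'' ℝ (e q)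
  choose φ hφ1 hφ2 using hφ
  refine ⟨φ, ?_⟩
  intro a ha b hb hab
  have hw : a - b ∈ closure (range e) := by
    have h1 := hcl_smul (-1) b (hspan' hb)
    have h2 := hcl_add a (hspan' ha) _ h1
    simpa [sub_eq_add_neg] using h2
  have hpos : 0 < ‖a - b‖ := norm_pos_iff.2 (sub_ne_zero.2 hab)
  obtain ⟨_, ⟨q, rfl⟩, hq⟩ := Metric.mem_closure_iff.1 hw (‖a - b‖ / 2) (by positivity)
  refine ⟨q, ?_⟩
  intro heq
  have h0 : φ q (a - b) = 0 := by rw [map_sub, heq, sub_self]
  rw [dist_eq_norm] at hq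
  have h1 : φ q (e q) = φ q (e q - (a - b)) := by rw [map_sub, h0, sub_zero]
  have h2 : |φ q (e q - (a - b))| ≤ ‖e q - (a - b)‖ := by
    have := (φ q).le_opNorm (e q - (a - b))
    rw [Real.norm_eq_abs] at this
    calc |φ q (e q - (a - b))| ≤ ‖φ q‖ * ‖e q - (a - b)‖ := this
      _ ≤ 1 * ‖e q - (a - b)‖ := by gcongr; exact hφ1 q
      _ = _ := one_mul _
  have h3 : ‖e q‖ ≤ ‖e q - (a - b)‖ := by
    have : ‖e q‖ = φ q (e q - (a - b)) := by rw [← h1]; exact (hφ2 q).symm
    rw [this]
    exact (le_abs_self _).trans h2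
  have h4 : ‖a - b‖ ≤ ‖e q‖ + ‖a - b - e q‖ := by
    have := norm_add_le (e q) (a - b - e q)
    simpa using this
  have h5 : ‖e q - (a - b)‖ = ‖a - b - e q‖ := norm_sub_rev _ _
  linarith

end FA

section Top

variable {X : Type u} [TopologicalSpace X] {E : Type w} [NormedAddCommGroup E] [NormedSpace ℝ E]

lemma WCont.mem_closure_span {f : X → E} (hf : WCont f) {S : Set X} {x : X}
    (hx : x ∈ closure S) : f x ∈ closure (Submodule.span ℝ (f '' S) : Set E) := by
  by_contra hcon
  obtain ⟨φ, h1, h2⟩ := exists_functional_of_notMem _ hcon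
  have h3 : IsClosed {y | φ (f y) = 0} := isClosed_eq (hf φ) continuous_const
  have h4 : S ⊆ {y | φ (f y) = 0} := fun y hy => h1 _ (Submodule.subset_span ⟨y, hy, rfl⟩)
  exact h2 (closure_minimal h4 h3 hx)

lemma WCont.isClosed_norm_le {f : X → E} (hf : WCont f) (e : E) (δ : ℝ) :
    IsClosed {x | ‖f x - e‖ ≤ δ} := by
  by_cases hδ : 0 ≤ δ
  · have : {x | ‖f x - e‖ ≤ δ} = ⋂ φ : StrongDual ℝ E, {x | ‖φ (f x) - φ e‖ ≤ δ * ‖φ‖} := by
      ext x
      simp only [mem_ofPred_eq, mem_iInter]
      constructor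
      · intro h φ
        rw [← map_sub, mul_comm]
        exact (φ.le_opNorm _).trans (by gcongr)
      · intro h
        refine NormedSpace.norm_le_dual_bound ℝ _ hδ ?_
        intro φ
        rw [map_sub]
        exact h φ
    rw [this]
    refine isClosed_iInter fun φ => ?_
    exact isClosed_le ((hf φ).sub continuous_const).norm continuous_const
  · have : {x | ‖f x - e‖ ≤ δ} = ∅ := by
      ext x
      simp only [mem_ofPred_eq, mem_empty_iff_false, iff_false]
      intro h
      exact hδ ((norm_nonneg _).trans h)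
    rw [this]
    exact isClosed_empty

/-- `G` separates the points of `F`. -/
def Sep (G : Set C(X, ℝ)) (F : Set X) : Prop :=
  ∀ x ∈ F, ∀ y ∈ F, x ≠ y → ∃ g ∈ G, g x ≠ g y

/-- From a weakly continuous map and a set `S` of size at most `κ` we get at most `κ`
continuous functions which separate the points of `closure S` which are separated by the map. -/
lemma WCont.exists_family {f : X → E} (hf : WCont f) {κ : Cardinal.{u}} (hκ : ℵ₀ ≤ κ)
    (S T : Set X) (hS : #S ≤ κ)
    (hT : ∀ x ∈ T, f x ∈ closure (Submodule.span ℝ (f '' S) : Set E)) :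
    ∃ G : Set C(X, ℝ), #G ≤ κ ∧ ∀ x ∈ T, ∀ y ∈ T, f x ≠ f y → ∃ g ∈ G, g x ≠ g y := by
  classical
  obtain ⟨φ, hφ⟩ := exists_functionals (fun s : S => f s)
  have hrange : range (fun s : S => f s) = f '' S := by
    ext e
    simp
  rw [hrange] at hφ
  let g : (S →₀ ℚ) → C(X, ℝ) := fun q => ⟨fun x => φ q (f x), hf (φ q)⟩
  refine ⟨range g, ?_, ?_⟩
  · refine mk_range_le.trans ?_
    by_cases hinf : Infinite S
    · rw [mk_finsupp_lift_of_infinite]
      simp [hS, hκ]
    · have : Finite S := not_infinite_iff_finite.1 hinf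
      have : Fintype S := Fintype.ofFinite S
      have hc : Countable (S →₀ ℚ) := inferInstance
      exact (mk_le_aleph0_iff.2 hc).trans hκ
  · intro x hx y hy hxy
    obtain ⟨q, hq⟩ := hφ (f x) (hT x hx) (f y) (hT y hy) hxy
    exact ⟨g q, ⟨q, rfl⟩, hq⟩

end Top

end Pool.Agent.SplitEberlein
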