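import Pool.Agent.Lib_helper75.Part1

open Set Topology Cardinal

universe u v w

namespace Pool.Agent.SplitEberlein

/-- Every subset of `X` is split by a weakly continuous map into a normed space. -/
def Split (X : Type u) [TopologicalSpace X] : Prop :=
  ∀ A : Set X, ∃ (E : Type w) (_ : NormedAddCommGroup E) (_ : NormedSpace ℝ E) (f : X → E),
    WCont f ∧ ∀ x y, f x = f y → x ∈ A → y ∈ A

lemma exists_enum {α : Type v} [Nonempty α] {I : Type v} [Nonempty I] (G : Set α)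
    (h : #G ≤ #I) : ∃ e : I → α, G ⊆ range e := by
  classical
  obtain ⟨emb⟩ := h
  refine ⟨fun i => if h : ∃ g : G, emb g = i then (Classical.choose h : G) else
    Classical.arbitrary α, ?_⟩
  intro g hg
  have h : ∃ g' : G, emb g' = emb ⟨g, hg⟩ := ⟨⟨g, hg⟩, rfl⟩
  refine ⟨emb ⟨g, hg⟩, ?_⟩
  simp only [h, dif_pos]
  have := emb.injective (Classical.choose_spec h)
  rw [this]

section

variable {X : Type u} [TopologicalSpace X]

lemma Split.point (hX : Split.{u, w} X) {κ : Cardinal.{u}} (hκ : ℵ₀ ≤ κ) (S : Set X)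
    (hS : #S ≤ κ) : ∀ x ∈ closure S, ∃ G : Set C(X, ℝ), #G ≤ κ ∧
      ∀ y ∈ closure S, y ≠ x → ∃ g ∈ G, g y ≠ g x := by
  intro x hx
  obtain ⟨E, _, _, f, hf, hA⟩ := hX {x}
  obtain ⟨G, hG, hG'⟩ := hf.exists_family hκ S (closure S) hS
    (fun y hy => hf.mem_closure_span hy)
  refine ⟨G, hG, fun y hy hyx => hG' y hy x hx ?_⟩
  intro heq
  exact hyx (hA x y heq.symm rfl)

lemma Split.card (hX : Split.{u, w} X) {κ : Cardinal.{u}} (hκ : ℵ₀ ≤ κ) (S : Set X)
    (hS : #S ≤ κ) : #(closure S) ≤ 2 ^ κ := by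
  classical
  have hκ0 : κ ≠ 0 := fun h => by
    rw [h] at hκ
    exact absurd hκ (not_le.2 aleph0_pos)
  have : Nonempty κ.out := by
    rw [← mk_ne_zero_iff, mk_out]; exact hκ0
  have h1 : ∀ x : closure S, ∃ e : κ.out → C(X, ℝ),
      ∀ y ∈ closure S, y ≠ x → ∃ i, e i y ≠ e i x := by
    intro x
    obtain ⟨G, hG, hG'⟩ := hX.point hκ S hS x x.2
    obtain ⟨e, he⟩ := exists_enum (I := κ.out) G (by rw [mk_out]; exact hG)
    refine ⟨e, fun y hy hyx => ?_⟩
    obtain ⟨g, hg, hgy⟩ := hG' y hy hyx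
    obtain ⟨i, rfl⟩ := he hg
    exact ⟨i, hgy⟩
  choose e he using h1
  let Φ : closure S → (κ.out → S → ℝ) := fun x i s => e x i s - e x i x
  have hinj : Function.Injective Φ := by
    intro x x' hxx
    by_contra hne
    have hne' : (x : X) ≠ x' := fun h => hne (Subtype.ext h)
    obtain ⟨i, hi⟩ := he x' x x.2 hne'
    have h2 : ∀ y ∈ closure S, e x i y - e x i x = e x' i y - e x' i x' := by
      have hcl : IsClosed {y | e x i y - e x i x = e x' i y - e x' i x'} :=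
        isClosed_eq ((e x i).continuous.sub continuous_const)
          ((e x' i).continuous.sub continuous_const)
      intro y hy
      refine closure_minimal ?_ hcl hy
      intro s hs
      exact congrFun (congrFun hxx i) ⟨s, hs⟩
    have h3 := h2 x x.2
    rw [sub_self] at h3
    exact hi (sub_eq_zero.1 h3.symm)
  refine (mk_le_of_injective hinj).trans ?_
  have hc : (lift.{u, 0} #ℝ) = 2 ^ (ℵ₀ : Cardinal.{u}) := by
    rw [mk_real, lift_continuum, two_power_aleph0]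
  have h4 : #(S → ℝ) ≤ 2 ^ κ := by
    rw [mk_arrow, hc]
    rw [lift_id'.{0, u}, ← power_mul]
    refine power_le_power_left two_ne_zero ?_
    calc ℵ₀ * #S ≤ κ * κ := mul_le_mul' hκ hS
      _ = κ := mul_eq_self hκ
  rw [mk_arrow, lift_id, lift_id, mk_out]
  calc #(S → ℝ) ^ κ ≤ (2 ^ κ) ^ κ := power_le_power_right h4
    _ = 2 ^ κ := by rw [← power_mul, mul_eq_self hκ]

/-- Density equals weight: the points of the closure of a set of size at most `κ` are
separated by at most `κ` continuous functions. -/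
lemma Split.mono (hX : Split.{u, w} X) {κ : Cardinal.{u}} (hκ : ℵ₀ ≤ κ) (S : Set X)
    (hS : #S ≤ κ) : ∃ G : Set C(X, ℝ), #G ≤ κ ∧ Sep G (closure S) := by
  classical
  have h1 : #(closure S) ≤ #(Set κ.out) := by
    rw [mk_set, mk_out]
    exact hX.card hκ S hS
  obtain ⟨ℓ⟩ := h1
  have h2 : ∀ i : κ.out, ∃ G : Set C(X, ℝ), #G ≤ κ ∧
      ∀ x y : closure S, i ∈ ℓ x → i ∉ ℓ y → ∃ g ∈ G, g (x : X) ≠ g y := by
    intro i
    obtain ⟨E, _, _, f, hf, hA⟩ := hX {x | ∃ h : x ∈ closure S, i ∈ ℓ ⟨x, h⟩}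
    obtain ⟨G, hG, hG'⟩ := hf.exists_family hκ S (closure S) hS
      (fun y hy => hf.mem_closure_span hy)
    refine ⟨G, hG, fun x y hx hy => hG' x x.2 y y.2 ?_⟩
    intro heq
    obtain ⟨_, h⟩ := hA x y heq ⟨x.2, hx⟩
    exact hy h
  choose G hG hG' using h2
  refine ⟨⋃ i, G i, ?_, ?_⟩
  · refine (mk_iUnion_le _).trans ?_
    rw [mk_out]
    calc κ * ⨆ i, #(G i) ≤ κ * κ := by
          gcongr
          exact ciSup_le' hG
      _ = κ := mul_eq_self hκ
  · intro x hx y hy hxy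
    have hne : ℓ ⟨x, hx⟩ ≠ ℓ ⟨y, hy⟩ := fun h => hxy (Subtype.ext_iff.1 (ℓ.injective h))
    rw [Ne, Set.ext_iff] at hne
    push Not at hne
    obtain ⟨i, hi⟩ := hne
    rcases hi with ⟨h3, h4⟩ | ⟨h3, h4⟩
    · obtain ⟨g, hg, hgne⟩ := hG' i ⟨x, hx⟩ ⟨y, hy⟩ h3 h4
      exact ⟨g, mem_iUnion.2 ⟨i, hg⟩, hgne⟩
    · obtain ⟨g, hg, hgne⟩ := hG' i ⟨y, hy⟩ ⟨x, hx⟩ h4 h3
      exact ⟨g, mem_iUnion.2 ⟨i, hg⟩, hgne.symm⟩

end

end Pool.Agent.SplitEberlein
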