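import Pool.Agent.Lib_helper75.Part2

open Set Topology Cardinal

universe u v w

namespace Pool.Agent.SplitEberlein

section

variable {X : Type u} [TopologicalSpace X]

lemma kaplansky_aux {E : Type w} [NormedAddCommGroup E] [NormedSpace ℝ E] {f : X → E}
    (hf : WCont f) {H : Set X} {x : X} (hx : x ∈ closure H) (n : ℕ) :
    ∃ C : Set X, C ⊆ H ∧ C.Finite ∧ ∀ φ : Fin n → StrongDual ℝ E, (∀ i, ‖φ i‖ ≤ n) →
      ∃ h ∈ C, ∀ i, |φ i (f h) - φ i (f x)| < 1 / ((n : ℝ) + 1) := by
  classical
  have hcomp : IsCompact (Set.pi univ (fun _ : Fin n =>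
      (WeakDual.toStrongDual ⁻¹' Metric.closedBall (0 : StrongDual ℝ E) (n : ℝ) :
        Set (WeakDual ℝ E)))) :=
    isCompact_univ_pi fun _ => WeakDual.isCompact_closedBall 0 _
  let O : H → Set (Fin n → WeakDual ℝ E) := fun h =>
    {φ | ∀ i, |φ i (f h) - φ i (f x)| < 1 / ((n : ℝ) + 1)}
  have hO : ∀ h, IsOpen (O h) := by
    intro h
    have : O h = ⋂ i, {φ | |φ i (f h) - φ i (f x)| < 1 / ((n : ℝ) + 1)} := by
      ext φ; simp [O]
    rw [this]
    refine isOpen_iInter_of_finite fun i => ?_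
    refine isOpen_lt ?_ continuous_const
    refine Continuous.abs (Continuous.sub ?_ ?_)
    · exact (WeakDual.eval_continuous (f h)).comp (continuous_apply i)
    · exact (WeakDual.eval_continuous (f x)).comp (continuous_apply i)
  have hcov : (Set.pi univ (fun _ : Fin n =>
      (WeakDual.toStrongDual ⁻¹' Metric.closedBall (0 : StrongDual ℝ E) (n : ℝ) :
        Set (WeakDual ℝ E)))) ⊆ ⋃ h, O h := by
    intro φ _
    have hU : IsOpen {y | ∀ i, |φ i (f y) - φ i (f x)| < 1 / ((n : ℝ) + 1)} := by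
      have : {y | ∀ i, |φ i (f y) - φ i (f x)| < 1 / ((n : ℝ) + 1)} =
          ⋂ i, {y | |φ i (f y) - φ i (f x)| < 1 / ((n : ℝ) + 1)} := by
        ext y; simp
      rw [this]
      refine isOpen_iInter_of_finite fun i => ?_
      refine isOpen_lt ?_ continuous_const
      exact Continuous.abs (Continuous.sub (hf (WeakDual.toStrongDual (φ i))) continuous_const)
    have hxU : x ∈ {y | ∀ i, |φ i (f y) - φ i (f x)| < 1 / ((n : ℝ) + 1)} := by
      intro i
      rw [sub_self, abs_zero]
      positivity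
    obtain ⟨h, hhU, hhH⟩ := mem_closure_iff.1 hx _ hU hxU
    exact mem_iUnion.2 ⟨⟨h, hhH⟩, hhU⟩
  obtain ⟨t, ht⟩ := hcomp.elim_finite_subcover O hO hcov
  refine ⟨(fun h : H => (h : X)) '' (t : Set H), ?_, t.finite_toSet.image _, ?_⟩
  · rintro _ ⟨h, _, rfl⟩
    exact h.2
  · intro φ hφ
    have h1 : (fun i => StrongDual.toWeakDual (φ i)) ∈ (Set.pi univ (fun _ : Fin n =>
      (WeakDual.toStrongDual ⁻¹' Metric.closedBall (0 : StrongDual ℝ E) (n : ℝ) :
        Set (WeakDual ℝ E)))) := by
      intro i _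
      simp only [mem_preimage, mem_closedBall_zero_iff]
      exact hφ i
    have h2 := ht h1
    simp only [mem_iUnion] at h2
    obtain ⟨h, hht, hh⟩ := h2
    exact ⟨h, ⟨h, hht, rfl⟩, fun i => hh i⟩

/-- If `H` contains the closures of its countable subsets, then `H` is closed. -/
lemma Split.isClosed_of_omega [CompactSpace X] (hX : Split.{u, w} X) (H : Set X)
    (hH : ∀ C ⊆ H, C.Countable → closure C ⊆ H) : IsClosed H := by
  classical
  obtain ⟨E, _, _, f, hf, hA⟩ := hX H
  refine isClosed_of_closure_subset fun x hx => ?_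
  have h1 := fun n => kaplansky_aux hf hx n
  choose C hCH hCfin hC using h1
  have hcount : (⋃ n, C n).Countable := countable_iUnion fun n => (hCfin n).countable
  have hsub : closure (⋃ n, C n) ⊆ H := hH _ (iUnion_subset hCH) hcount
  have hcomp : IsCompact (closure (⋃ n, C n)) := isClosed_closure.isCompact
  obtain ⟨y, hy, hy'⟩ := hcomp.inter_iInter_nonempty
    (fun p : StrongDual ℝ E × ℕ => {y | |p.1 (f y) - p.1 (f x)| ≤ 1 / ((p.2 : ℝ) + 1)})
    (fun p => isClosed_le (Continuous.abs (Continuous.sub (hf p.1) continuous_const))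
      continuous_const) (by
      intro t
      obtain ⟨n, hn1, hn2, hn3⟩ : ∃ n : ℕ, t.toList.length ≤ n ∧ (∀ p ∈ t, ‖p.1‖ ≤ n) ∧
          (∀ p ∈ t, p.2 ≤ n) := by
        refine ⟨t.toList.length + (∑ p ∈ t, ⌈‖p.1‖⌉₊) + ∑ p ∈ t, p.2, by omega, ?_, ?_⟩
        · intro p hp
          refine (Nat.le_ceil _).trans ?_
          have := Finset.single_le_sum (f := fun p : StrongDual ℝ E × ℕ => ⌈‖p.1‖⌉₊)
            (fun i _ => Nat.zero_le _) hp
          exact_mod_cast (by omega :
            ⌈‖p.1‖⌉₊ ≤ t.toList.length + (∑ p ∈ t, ⌈‖p.1‖⌉₊) + ∑ p ∈ t, p.2)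
        · intro p hp
          have := Finset.single_le_sum (f := fun p : StrongDual ℝ E × ℕ => p.2)
            (fun i _ => Nat.zero_le _) hp
          omega
      obtain ⟨h, hhC, hh⟩ := hC n (fun i => ((t.toList)[(i : ℕ)]?.map Prod.fst).getD 0) (by
        intro i
        rcases hg : (t.toList)[(i : ℕ)]? with _ | p
        · simp
        · simp only [Option.map_some, Option.getD_some]
          have := List.mem_of_getElem? hg
          exact hn2 p (Finset.mem_toList.1 this))
      refine ⟨h, subset_closure (mem_iUnion.2 ⟨n, hhC⟩), ?_⟩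
      simp only [mem_iInter, mem_ofPred_eq]
      intro p hp
      obtain ⟨k, hk, hkp⟩ := List.mem_iff_getElem.1 (Finset.mem_toList.2 hp)
      have h2 := hh ⟨k, by omega⟩
      simp only at h2
      rw [List.getElem?_eq_getElem hk, hkp] at h2
      simp only [Option.map_some, Option.getD_some] at h2
      refine h2.le.trans ?_
      have h3 : (p.2 : ℝ) ≤ n := by exact_mod_cast hn3 p hp
      have h4 : (0 : ℝ) ≤ p.2 := Nat.cast_nonneg _
      gcongr)
  have hyx : f y = f x := by
    rw [← sub_eq_zero]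
    by_contra hne
    obtain ⟨g, hg1, hg2⟩ := exists_dual_vector'' ℝ (f y - f x)
    have h5 : ∀ m : ℕ, |g (f y) - g (f x)| ≤ 1 / ((m : ℝ) + 1) := by
      intro m
      have := mem_iInter.1 hy' (g, m)
      simpa using this
    have h6 : |g (f y) - g (f x)| ≤ 0 := by
      refine ge_of_tendsto' (tendsto_one_div_add_atTop_nhds_zero_nat (𝕜 := ℝ)) ?_
      exact h5
    rw [← map_sub, hg2] at h6
    replace h6 : ‖f y - f x‖ ≤ 0 := (le_abs_self _).trans h6
    exact hne (norm_le_zero_iff.1 h6)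
  exact hA y x hyx (hsub hy)

/-- Countable tightness. -/
lemma Split.tight [CompactSpace X] (hX : Split.{u, w} X) {S : Set X} {x : X}
    (hx : x ∈ closure S) : ∃ C ⊆ S, C.Countable ∧ x ∈ closure C := by
  classical
  have hcl : IsClosed {x | ∃ C ⊆ S, C.Countable ∧ x ∈ closure C} := by
    refine hX.isClosed_of_omega _ ?_
    intro D hD hDc z hz
    have hD' : ∀ d ∈ D, ∃ C ⊆ S, C.Countable ∧ d ∈ closure C := hD
    choose! C hC1 hC2 hC3 using hD'
    refine ⟨⋃ d ∈ D, C d, iUnion₂_subset hC1, hDc.biUnion hC2, ?_⟩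
    have h1 : D ⊆ closure (⋃ d ∈ D, C d) := fun d hd =>
      closure_mono (subset_biUnion_of_mem (u := C) hd) (hC3 d hd)
    exact closure_minimal h1 isClosed_closure hz
  refine closure_minimal ?_ hcl hx
  intro s hs
  exact ⟨{s}, singleton_subset_iff.2 hs, countable_singleton s, subset_closure rfl⟩

end

end Pool.Agent.SplitEberlein
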