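import Pool.Agent.Lib_helper75.Part3

open Set Topology Cardinal

universe u v w

namespace Pool.Agent.SplitEberlein

section

variable {X : Type u} [TopologicalSpace X]

/-- Fragmentability: every nonempty open set contains a nonempty open set on which the weakly
continuous map `f` oscillates little in norm. -/
lemma Split.fragment [CompactSpace X] [T2Space X] (hX : Split.{u, v} X)
    {E : Type w} [NormedAddCommGroup E] [NormedSpace ℝ E] {f : X → E} (hf : WCont f)
    {V : Set X} (hV : IsOpen V) (hVne : V.Nonempty) {ε : ℝ} (hε : 0 < ε) :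
    ∃ W ⊆ V, IsOpen W ∧ W.Nonempty ∧ ∀ x ∈ W, ∀ y ∈ W, ‖f x - f y‖ ≤ ε := by
  classical
  by_contra hcon
  have hcon' : ∀ W ⊆ V, IsOpen W → W.Nonempty → ∃ x ∈ W, ∃ y ∈ W, ε < ‖f x - f y‖ := by
    intro W hW hWo hWne
    by_contra h
    push Not at h
    exact hcon ⟨W, hW, hWo, hWne, h⟩
  have h1 : ∀ p ∈ V, p ∈ closure {q | q ∈ V ∧ ε / 2 < ‖f q - f p‖} := by
    intro p hp
    rw [mem_closure_iff]
    intro O hO hpO
    obtain ⟨x, hx, y, hy, hxy⟩ := hcon' (O ∩ V) inter_subset_right (hO.inter hV) ⟨p, hpO, hp⟩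
    by_cases hxp : ε / 2 < ‖f x - f p‖
    · exact ⟨x, hx.1, hx.2, hxp⟩
    · refine ⟨y, hy.1, hy.2, ?_⟩
      by_contra hyp
      have h2 : ‖f x - f y‖ ≤ ‖f x - f p‖ + ‖f y - f p‖ := by
        have := norm_sub_le (f x - f p) (f y - f p)
        simpa using this
      linarith [not_lt.1 hxp, not_lt.1 hyp]
  have h2 : ∀ p ∈ V, ∃ C ⊆ {q | q ∈ V ∧ ε / 2 < ‖f q - f p‖}, C.Countable ∧ p ∈ closure C :=
    fun p hp => hX.tight (h1 p hp)
  choose! Q hQ1 hQ2 hQ3 using h2
  obtain ⟨p0, hp0⟩ := hVne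
  let P : ℕ → Set X := fun n => Nat.rec {p0} (fun _ S => ⋃ p ∈ S, Q p) n
  have hPsucc : ∀ n, P (n + 1) = ⋃ p ∈ P n, Q p := fun n => rfl
  have hPV : ∀ n, P n ⊆ V := by
    intro n
    induction n with
    | zero => exact singleton_subset_iff.2 hp0
    | succ n ih =>
      rw [hPsucc]
      exact iUnion₂_subset fun p hp => (hQ1 p (ih hp)).trans fun q hq => hq.1
  have hPc : ∀ n, (P n).Countable := by
    intro n
    induction n with
    | zero => exact countable_singleton _
    | succ n ih =>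
      rw [hPsucc]
      exact ih.biUnion fun p hp => hQ2 p (hPV n hp)
  have hPall : (⋃ n, P n).Countable := countable_iUnion hPc
  have hQP : ∀ p ∈ ⋃ n, P n, Q p ⊆ ⋃ n, P n := by
    intro p hp
    obtain ⟨n, hn⟩ := mem_iUnion.1 hp
    refine Subset.trans ?_ (subset_iUnion P (n + 1))
    rw [hPsucc]
    exact subset_biUnion_of_mem (u := Q) hn
  have hPV' : ⋃ n, P n ⊆ V := iUnion_subset hPV
  -- separability of the closed span
  have hsep : TopologicalSpace.IsSeparable
      (closure (Submodule.span ℝ (f '' ⋃ n, P n) : Set E)) :=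
    ((hPall.image f).isSeparable.span (R := ℝ)).closure
  obtain ⟨c, hc, hcc⟩ := hsep
  have hKne : Nonempty (closure (⋃ n, P n)) :=
    ⟨⟨p0, subset_closure (mem_iUnion.2 ⟨0, rfl⟩)⟩⟩
  have hKc : CompactSpace (closure (⋃ n, P n)) :=
    isCompact_iff_compactSpace.1 isClosed_closure.isCompact
  have hcount : Countable c := hc.to_subtype
  obtain ⟨e, he⟩ := nonempty_interior_of_iUnion_of_closed
    (f := fun e : c => {x : closure (⋃ n, P n) | ‖f x - e‖ ≤ ε / 4}) (by
      intro e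
      exact (hf.isClosed_norm_le (e : E) (ε / 4)).preimage continuous_subtype_val) (by
      rw [eq_univ_iff_forall]
      intro x
      have hx := hcc (hf.mem_closure_span x.2)
      obtain ⟨e, hec, hex⟩ := Metric.mem_closure_iff.1 hx (ε / 4) (by positivity)
      rw [mem_iUnion]
      refine ⟨⟨e, hec⟩, ?_⟩
      rw [dist_eq_norm] at hex
      exact hex.le)
  obtain ⟨z, hz⟩ := he
  obtain ⟨O, hO, hOeq⟩ := isOpen_induced_iff.1 (isOpen_interior
    (s := {x : closure (⋃ n, P n) | ‖f x - e‖ ≤ ε / 4}))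
  have hzO : (z : X) ∈ O := by
    have : z ∈ Subtype.val ⁻¹' O := by rw [hOeq]; exact hz
    exact this
  have hOK : ∀ x ∈ closure (⋃ n, P n), x ∈ O → ‖f x - e‖ ≤ ε / 4 := by
    intro x hx hxO
    have : (⟨x, hx⟩ : closure (⋃ n, P n)) ∈ Subtype.val ⁻¹' O := hxO
    rw [hOeq] at this
    have h7 := interior_subset this
    exact h7
  obtain ⟨p, hpO, hpP⟩ := mem_closure_iff.1 z.2 O hO hzO
  obtain ⟨q, hqO, hqQ⟩ := mem_closure_iff.1 (hQ3 p (hPV' hpP)) O hO hpO
  have h3 := hOK p (subset_closure hpP) hpO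
  have h4 := hOK q (subset_closure (hQP p hpP hqQ)) hqO
  have h5 := (hQ1 p (hPV' hpP) hqQ).2
  have h6 : ‖f q - f p‖ ≤ ‖f q - e‖ + ‖f p - e‖ := by
    have := norm_sub_le (f q - e) (f p - e)
    simpa using this
  linarith

end

end Pool.Agent.SplitEberlein
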