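import Pool.Agent.Lib_helper75.Part4

open Set Topology Cardinal

universe u v w

namespace Pool.Agent.SplitEberlein

/-- Transfinite dependent choice. -/
lemma exists_transfinite {I : Type u} (r : I → I → Prop) (hwf : WellFounded r)
    {T : Type v} [Nonempty T] (R : I → (I → T) → T → Prop)
    (hR : ∀ i F F' t, (∀ j, r j i → F j = F' j) → R i F t → R i F' t)
    (h : ∀ i F, (∀ j, r j i → R j F (F j)) → ∃ t, R i F t) : ∃ F : I → T, ∀ i, R i F (F i) := by
  classical
  let G : ∀ i, (∀ j, r j i → T) → T := fun i prev =>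
    if h : ∃ t, R i (fun j => if hj : r j i then prev j hj else Classical.arbitrary T) t
    then Classical.choose h else Classical.arbitrary T
  let F : I → T := hwf.fix G
  have hF : ∀ i, F i = G i (fun j _ => F j) := fun i => hwf.fix_eq G i
  refine ⟨F, fun i => ?_⟩
  induction i using hwf.induction with
  | _ i ih =>
    obtain ⟨t, ht⟩ := h i F ih
    have hex : ∃ t, R i (fun j => if _ : r j i then F j else Classical.arbitrary T) t := by
      refine ⟨t, hR i F _ t ?_ ht⟩
      intro j hj
      simp [hj]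
    have h1 : F i = Classical.choose hex := by
      rw [hF]
      simp only [G]
      rw [dif_pos hex]
    rw [h1]
    refine hR i _ F _ ?_ (Classical.choose_spec hex)
    intro j hj
    simp [hj]

lemma exists_bound {I : Type u} [LinearOrder I] {κ : Cardinal.{u}} (hκ : ℵ₀ ≤ κ)
    (h1 : ∀ i : I, #(Iio i) ≤ κ) (h2 : κ < #I) (B : Set I) (hB : #B ≤ κ) :
    ∃ m, ∀ b ∈ B, b < m := by
  by_contra hcon
  push Not at hcon
  refine absurd h2 (not_lt.2 ?_)
  have hcov : (univ : Set I) ⊆ ⋃ b : B, Iic (b : I) := by
    intro m _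
    obtain ⟨b, hb, hmb⟩ := hcon m
    exact mem_iUnion.2 ⟨⟨b, hb⟩, hmb⟩
  have h3 : ∀ b : I, #(Iic b) ≤ κ := by
    intro b
    have : Iic b = insert b (Iio b) := by
      ext x
      simp [le_iff_eq_or_lt]
    rw [this]
    refine mk_insert_le.trans ?_
    calc #(Iio b) + 1 ≤ κ + κ := add_le_add (h1 b) ((one_le_aleph0).trans hκ)
      _ = κ := add_eq_self hκ
  calc #I = #(univ : Set I) := mk_univ.symm
    _ ≤ #(⋃ b : B, Iic (b : I)) := mk_le_mk_of_subset hcov
    _ ≤ #B * ⨆ b : B, #(Iic (b : I)) := mk_iUnion_le _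
    _ ≤ κ * κ := by
        gcongr
        exact ciSup_le' fun b => h3 b
    _ = κ := mul_eq_self hκ

section

variable {X : Type u} [TopologicalSpace X]

/-- A `G_δ` point: the point is determined by countably many continuous functions. -/
def GPt (x : X) : Prop := ∃ g : ℕ → C(X, ℝ), ∀ y, y ≠ x → ∃ n, g n y ≠ g n x

/-- The `G_δ` points are dense. -/
lemma Split.exists_gpt [CompactSpace X] [T2Space X] (hX : Split.{u, w} X) {O : Set X}
    (hO : IsOpen O) (hne : O.Nonempty) : ∃ x ∈ O, GPt x := by
  classical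
  by_contra hcon
  push Not at hcon
  obtain ⟨xs, hxs⟩ := hne
  obtain ⟨h0, h01, h02, -⟩ := exists_continuous_zero_one_of_isClosed
    (isClosed_singleton (x := xs)) hO.isClosed_compl
    (by rw [disjoint_singleton_left]; exact fun h => h hxs)
  have h0O : ∀ x, h0 x = 0 → x ∈ O := by
    intro x hx
    by_contra hxO
    have := h02 hxO
    rw [hx] at this
    simp at this
  -- the index set
  let I : Type := (Cardinal.aleph 1).ord.ToType
  have hI1 : ∀ i : I, #(Iio i) ≤ ℵ₀ := by
    intro i
    have := mk_Iio_toType_ord_lt i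
    rw [← Order.lt_succ_iff, succ_aleph0]
    exact this
  have hI2 : ℵ₀ < #I := by
    show ℵ₀ < #((Cardinal.aleph 1).ord.ToType)
    rw [mk_ord_toType]
    exact aleph0_lt_aleph_one
  have hIne : Nonempty I := mk_ne_zero_iff.1 (aleph0_pos.trans hI2).ne'
  have : Nonempty (X × C(X, ℝ)) := ⟨(xs, h0)⟩
  obtain ⟨F, hF⟩ := exists_transfinite (I := I) (fun i j => i < j) wellFounded_lt
    (T := X × C(X, ℝ))
    (fun i F t => (∀ j < i, (F j).2 t.1 = 0) ∧ h0 t.1 = 0 ∧ t.2 t.1 = 0 ∧
      ∀ y ∈ closure {x | ∃ j < i, x = (F j).1}, t.2 y = 1) (by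
      intro i F F' t hFF ⟨h1, h2, h3, h4⟩
      refine ⟨fun j hj => ?_, h2, h3, ?_⟩
      · rw [← hFF j hj]
        exact h1 j hj
      · have : {x | ∃ j < i, x = (F' j).1} = {x | ∃ j < i, x = (F j).1} := by
          ext x
          constructor
          · rintro ⟨j, hj, rfl⟩
            exact ⟨j, hj, by rw [hFF j hj]⟩
          · rintro ⟨j, hj, rfl⟩
            exact ⟨j, hj, by rw [hFF j hj]⟩
        rw [this]
        exact h4) (by
      intro i F hF
      -- the closed set of common zeros is nonempty
      have hZ : ∃ x, h0 x = 0 ∧ ∀ j < i, (F j).2 x = 0 := by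
        have hcomp : IsCompact {x | h0 x = 0} :=
          (isClosed_eq h0.continuous continuous_const).isCompact
        obtain ⟨x, hx, hx'⟩ := hcomp.inter_iInter_nonempty
          (fun j : Iio i => {x | (F j).2 x = 0})
          (fun j => isClosed_eq (F j).2.continuous continuous_const) (by
          intro t
          by_cases ht : t.Nonempty
          · obtain ⟨m, hmt, hm⟩ := t.exists_max_image id ht
            refine ⟨(F m).1, (hF m m.2).2.1, ?_⟩
            simp only [mem_iInter, mem_ofPred_eq]
            intro j hj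
            rcases (hm j hj).lt_or_eq with hlt | heq
            · exact (hF m m.2).1 j hlt
            · simp only [id] at heq
              rw [heq]
              exact (hF m m.2).2.2.1
          · rw [Finset.not_nonempty_iff_eq_empty] at ht
            subst ht
            refine ⟨xs, h01 rfl, by simp⟩)
        refine ⟨x, hx, fun j hj => ?_⟩
        exact mem_iInter.1 hx' ⟨j, hj⟩
      -- a countable family separating the points of the closure
      let S : Set X := {x | ∃ j < i, x = (F j).1}
      have hSc : S.Countable := by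
        have : S = (fun j => (F j).1) '' (Iio i) := by
          ext x
          constructor
          · rintro ⟨j, hj, rfl⟩
            exact ⟨j, hj, rfl⟩
          · rintro ⟨j, hj, rfl⟩
            exact ⟨j, hj, rfl⟩
        rw [this]
        exact (le_aleph0_iff_set_countable.1 (hI1 i)).image _
      obtain ⟨G, hG, hGsep⟩ := hX.mono le_rfl S (le_aleph0_iff_set_countable.2 hSc)
      have hGc : G.Countable := le_aleph0_iff_set_countable.1 hG
      -- some common zero is not in the closure
      obtain ⟨x, hx0, hx1, hx2⟩ : ∃ x, h0 x = 0 ∧ (∀ j < i, (F j).2 x = 0) ∧ x ∉ closure S := by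
        by_contra hno
        push Not at hno
        obtain ⟨x, hx0, hx1⟩ := hZ
        refine hcon x (h0O x hx0) ?_
        have hIc : Countable (Iio i) := mk_le_aleph0_iff.1 (hI1 i)
        have hcount : ({h0} ∪ (fun j => (F j).2) '' (Iio i) ∪ G : Set C(X, ℝ)).Countable :=
          ((countable_singleton _).union
            ((le_aleph0_iff_set_countable.1 (hI1 i)).image _)).union hGc
        obtain ⟨g, hg⟩ := hcount.exists_eq_range ⟨h0, Or.inl (Or.inl rfl)⟩
        refine ⟨g, fun y hy => ?_⟩
        by_contra hne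
        push Not at hne
        have hne' : ∀ k ∈ ({h0} ∪ (fun j => (F j).2) '' (Iio i) ∪ G : Set C(X, ℝ)),
            k y = k x := by
          rw [hg]
          rintro _ ⟨n, rfl⟩
          exact hne n
        have hy0 : h0 y = 0 := by rw [hne' h0 (Or.inl (Or.inl rfl)), hx0]
        have hy1 : ∀ j < i, (F j).2 y = 0 := by
          intro j hj
          rw [hne' (F j).2 (Or.inl (Or.inr ⟨j, hj, rfl⟩)), hx1 j hj]
        obtain ⟨k, hk, hkne⟩ := hGsep y (hno y hy0 hy1) x (hno x hx0 hx1) hy
        exact hkne (hne' k (Or.inr hk))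
      obtain ⟨k, hk1, hk2, -⟩ := exists_continuous_zero_one_of_isClosed
        (isClosed_singleton (x := x)) (isClosed_closure (s := S))
        (by rw [disjoint_singleton_left]; exact hx2)
      exact ⟨(x, k), hx1, hx0, hk1 rfl, fun y hy => hk2 hy⟩)
  -- the contradiction
  have hcl : IsClosed (⋃ i : I, closure {x | ∃ j < i, x = (F j).1}) := by
    refine hX.isClosed_of_omega _ ?_
    intro C hC hCc
    have h1 : ∀ c ∈ C, ∃ i : I, c ∈ closure {x | ∃ j < i, x = (F j).1} := fun c hc =>
      mem_iUnion.1 (hC hc)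
    choose! idx hidx using h1
    have h2 : #(idx '' C) ≤ ℵ₀ := le_aleph0_iff_set_countable.2 (hCc.image idx)
    obtain ⟨m, hm⟩ := exists_bound le_rfl hI1 hI2 (idx '' C) h2
    refine Subset.trans ?_ (subset_iUnion _ m)
    refine closure_minimal ?_ isClosed_closure
    intro c hc
    refine closure_mono ?_ (hidx c hc)
    rintro x ⟨j, hj, rfl⟩
    exact ⟨j, hj.trans (hm _ ⟨c, hc, rfl⟩), rfl⟩
  have hnext : ∀ i : I, ∃ m, i < m := by
    intro i
    obtain ⟨m, hm⟩ := exists_bound le_rfl hI1 hI2 {i} (by simp)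
    exact ⟨m, hm i rfl⟩
  obtain ⟨p, hp, hp'⟩ := hcl.isCompact.inter_iInter_nonempty
    (fun j : I => {x | (F j).2 x = 0})
    (fun j => isClosed_eq (F j).2.continuous continuous_const) (by
      intro t
      obtain ⟨m, hm⟩ : ∃ m : I, ∀ j ∈ t, j < m := by
        obtain ⟨m, hm⟩ := exists_bound le_rfl hI1 hI2 (t : Set I)
          (le_aleph0_iff_set_countable.2 t.countable_toSet)
        exact ⟨m, fun j hj => hm j hj⟩
      obtain ⟨m', hm'⟩ := hnext m
      refine ⟨(F m).1, mem_iUnion.2 ⟨m', subset_closure ⟨m, hm', rfl⟩⟩, ?_⟩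
      simp only [mem_iInter, mem_ofPred_eq]
      intro j hj
      exact (hF m).1 j (hm j hj))
  obtain ⟨i, hi⟩ := mem_iUnion.1 hp
  have h1 := (hF i).2.2.2 p hi
  have h2 : (F i).2 p = 0 := mem_iInter.1 hp' i
  rw [h2] at h1
  exact zero_ne_one h1

end

end Pool.Agent.SplitEberlein
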