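import Pool.Agent.Lib_helper75.Part5

open Set Topology Cardinal

universe u v w

namespace Pool.Agent.SplitEberlein

section

variable {X : Type u} [TopologicalSpace X]

/-- Basic open sets determined by a family of continuous functions. -/
def box (G : Set C(X, ℝ)) (j : Finset (G × ℚ × ℚ)) : Set X :=
  {y | ∀ t ∈ j, (t.2.1 : ℝ) < (t.1 : C(X, ℝ)) y ∧ (t.1 : C(X, ℝ)) y < (t.2.2 : ℝ)}

lemma isOpen_box (G : Set C(X, ℝ)) (j : Finset (G × ℚ × ℚ)) : IsOpen (box G j) := by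
  have : box G j = ⋂ t ∈ j, {y | (t.2.1 : ℝ) < (t.1 : C(X, ℝ)) y ∧
      (t.1 : C(X, ℝ)) y < (t.2.2 : ℝ)} := by
    ext y
    simp [box]
  rw [this]
  refine isOpen_biInter_finset fun t _ => ?_
  exact (isOpen_lt continuous_const (t.1 : C(X, ℝ)).continuous).inter
    (isOpen_lt (t.1 : C(X, ℝ)).continuous continuous_const)

lemma box_base [CompactSpace X] {F : Set X} (hF : IsClosed F) {G : Set C(X, ℝ)} (hG : Sep G F)
    {x : X} (hx : x ∈ F) {O : Set X} (hO : IsOpen O) (hxO : x ∈ O) :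
    ∃ j, x ∈ box G j ∧ box G j ∩ F ⊆ O := by
  classical
  have hcomp : IsCompact (F \ O) := (hF.sdiff hO).isCompact
  let T : Type u := {t : G × ℚ × ℚ // (t.2.1 : ℝ) < (t.1 : C(X, ℝ)) x ∧
    (t.1 : C(X, ℝ)) x < (t.2.2 : ℝ)}
  obtain ⟨s, hs⟩ := hcomp.elim_finite_subcover
    (fun t : T => {y | ((t.1.1 : C(X, ℝ)) y < (t.1.2.1 : ℝ)) ∨
      ((t.1.2.2 : ℝ) < (t.1.1 : C(X, ℝ)) y)})
    (fun t => (isOpen_lt (t.1.1 : C(X, ℝ)).continuous continuous_const).union
      (isOpen_lt continuous_const (t.1.1 : C(X, ℝ)).continuous)) (by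
      intro y hy
      have hyx : y ≠ x := fun h => hy.2 (h ▸ hxO)
      obtain ⟨g, hg, hgne⟩ := hG y hy.1 x hx hyx
      rcases lt_or_gt_of_ne hgne with h | h
      · obtain ⟨a, ha1, ha2⟩ := exists_rat_btwn h
        obtain ⟨b, hb⟩ := exists_rat_gt (g x)
        exact mem_iUnion.2 ⟨⟨(⟨g, hg⟩, a, b), ha2, hb⟩, Or.inl ha1⟩
      · obtain ⟨b, hb1, hb2⟩ := exists_rat_btwn h
        obtain ⟨a, ha⟩ := exists_rat_lt (g x)
        exact mem_iUnion.2 ⟨⟨(⟨g, hg⟩, a, b), ha, hb1⟩, Or.inr hb2⟩)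
  refine ⟨s.image Subtype.val, ?_, ?_⟩
  · intro t ht
    obtain ⟨t', _, rfl⟩ := Finset.mem_image.1 ht
    exact t'.2
  · rintro y ⟨hy, hyF⟩
    by_contra hyO
    have h1 := hs ⟨hyF, hyO⟩
    simp only [mem_iUnion] at h1
    obtain ⟨t, hts, ht⟩ := h1
    have h2 := hy t.1 (Finset.mem_image_of_mem _ hts)
    rcases ht with h | h
    · exact absurd h (not_lt.2 h2.1.le)
    · exact absurd h (not_lt.2 h2.2.le)

lemma mk_finset_le_of_le {α : Type u} {κ : Cardinal.{u}} (hκ : ℵ₀ ≤ κ) (h : #α ≤ κ) :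
    #(Finset α) ≤ κ := by
  by_cases hinf : Infinite α
  · rw [mk_finset_of_infinite]
    exact h
  · have : Finite α := not_infinite_iff_finite.1 hinf
    have hc : Countable (Finset α) := inferInstance
    exact (mk_le_aleph0_iff.2 hc).trans hκ

lemma mk_box_index {G : Set C(X, ℝ)} {κ : Cardinal.{u}} (hκ : ℵ₀ ≤ κ) (hG : #G ≤ κ) :
    #(Finset (G × ℚ × ℚ)) ≤ κ := by
  refine mk_finset_le_of_le hκ ?_
  rw [mk_prod, lift_id'.{0, u}]
  have h1 : lift.{u, 0} #(ℚ × ℚ) ≤ κ := by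
    refine le_trans ?_ hκ
    rw [lift_le_aleph0]
    exact mk_le_aleph0_iff.2 inferInstance
  calc #G * lift.{u, 0} #(ℚ × ℚ) ≤ κ * κ := mul_le_mul' hG h1
    _ = κ := mul_eq_self hκ

/-- A closed set whose points are separated by `κ` functions has density at most `κ`. -/
lemma dense_of_sep [CompactSpace X] {F : Set X} (hF : IsClosed F) {G : Set C(X, ℝ)}
    (hG : Sep G F) {κ : Cardinal.{u}} (hκ : ℵ₀ ≤ κ) (hGκ : #G ≤ κ) :
    ∃ S ⊆ F, #S ≤ κ ∧ F ⊆ closure S := by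
  classical
  have h1 : ∀ j : {j : Finset (G × ℚ × ℚ) // (box G j ∩ F).Nonempty}, ∃ x, x ∈ box G j.1 ∩ F :=
    fun j => j.2
  choose p hp using h1
  refine ⟨range p, ?_, ?_, ?_⟩
  · rintro _ ⟨j, rfl⟩
    exact (hp j).2
  · exact mk_range_le.trans ((mk_subtype_le _).trans (mk_box_index hκ hGκ))
  · intro x hx
    rw [mem_closure_iff]
    intro O hO hxO
    obtain ⟨j, hj1, hj2⟩ := box_base hF hG hx hO hxO
    exact ⟨p ⟨j, x, hj1, hx⟩, hj2 (hp ⟨j, x, hj1, hx⟩), ⟨_, rfl⟩⟩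

/-- A nonempty open set of large hereditary density contains a closed set of weight exactly
`succ κ`. -/
lemma Split.exists_K [CompactSpace X] [T2Space X] (hX : Split.{u, w} X) {U : Set X}
    {lam : Cardinal.{u}}
    (hU : ∀ V ⊆ U, IsOpen V → V.Nonempty → ∀ S : Set X, V ⊆ closure S → lam ≤ #S)
    {V : Set X} (hVU : V ⊆ U) (hV : IsOpen V) (hVne : V.Nonempty) {κ : Cardinal.{u}}
    (hκ : ℵ₀ ≤ κ) (hκl : κ < lam) :
    ∃ K ⊆ V, IsClosed K ∧ (∃ G : Set C(X, ℝ), #G ≤ Order.succ κ ∧ Sep G K) ∧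
      ∀ G : Set C(X, ℝ), #G ≤ κ → ¬ Sep G K := by
  classical
  obtain ⟨x0, hx0⟩ := hVne
  obtain ⟨V', hV'o, hx0V'', hV'V⟩ := normal_exists_closure_subset
    (isClosed_singleton (x := x0)) hV (singleton_subset_iff.2 hx0)
  have hx0V' : x0 ∈ V' := hx0V'' rfl
  have hV'ne : V'.Nonempty := ⟨x0, hx0V'⟩
  have hV'V' : V' ⊆ V := subset_closure.trans hV'V
  let J : Type u := (Order.succ κ).ord.ToType
  have hJ1 : ∀ i : J, #(Iio i) ≤ κ := by
    intro i
    have := mk_Iio_toType_ord_lt i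
    exact Order.lt_succ_iff.1 this
  have hJ2 : κ < #J := by
    show κ < #((Order.succ κ).ord.ToType)
    rw [mk_ord_toType]
    exact Order.lt_succ κ
  have hXne : Nonempty X := ⟨x0⟩
  obtain ⟨t, ht⟩ := exists_transfinite (I := J) (fun i j => i < j) wellFounded_lt (T := X)
    (fun i F x => x ∈ V' ∧ x ∉ closure (F '' Iio i)) (by
      intro i F F' x hFF ⟨h1, h2⟩
      refine ⟨h1, ?_⟩
      have : F' '' Iio i = F '' Iio i := by
        apply image_congr
        intro j hj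
        exact (hFF j hj).symm
      rw [this]
      exact h2) (by
      intro i F _
      have h1 : #(F '' Iio i) ≤ κ := mk_image_le.trans (hJ1 i)
      have h2 : ¬ V' ⊆ closure (F '' Iio i) := by
        intro h
        exact absurd (hU V' (hV'V'.trans hVU) hV'o hV'ne _ h) (not_le.2 (h1.trans_lt hκl))
      rw [Set.not_subset] at h2
      obtain ⟨x, hx1, hx2⟩ := h2
      exact ⟨x, hx1, hx2⟩)
  have hTV : range t ⊆ V' := by
    rintro _ ⟨j, rfl⟩
    exact (ht j).1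
  refine ⟨closure (range t), (closure_mono hTV).trans hV'V, isClosed_closure, ?_, ?_⟩
  · refine hX.mono (hκ.trans (Order.le_succ κ)) (range t) ?_
    refine mk_range_le.trans ?_
    show #((Order.succ κ).ord.ToType) ≤ _
    rw [mk_ord_toType]
  · intro G hG hsep
    obtain ⟨S, hS1, hS2, hS3⟩ := dense_of_sep isClosed_closure hsep hκ hG
    have h1 : ∀ s ∈ S, ∃ j : J, s ∈ closure (t '' Iio j) := by
      intro s hs
      obtain ⟨C, hC1, hC2, hC3⟩ := hX.tight (hS1 hs)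
      have h2 : ∀ c ∈ C, ∃ j : J, t j = c := fun c hc => hC1 hc
      have hJne : Nonempty J := mk_ne_zero_iff.1 ((aleph0_pos.trans_le hκ).trans hJ2).ne'
      choose! idx hidx using h2
      have h3 : #(idx '' C) ≤ κ :=
        (le_aleph0_iff_set_countable.2 (hC2.image idx)).trans hκ
      obtain ⟨m, hm⟩ := exists_bound hκ hJ1 hJ2 (idx '' C) h3
      refine ⟨m, closure_mono ?_ hC3⟩
      intro c hc
      exact ⟨idx c, hm _ ⟨c, hc, rfl⟩, hidx c hc⟩
    have hJne : Nonempty J := mk_ne_zero_iff.1 ((aleph0_pos.trans_le hκ).trans hJ2).ne'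
    choose! idx hidx using h1
    obtain ⟨m, hm⟩ := exists_bound hκ hJ1 hJ2 (idx '' S) (mk_image_le.trans hS2)
    have h4 : S ⊆ closure (t '' Iio m) := by
      intro s hs
      refine closure_mono ?_ (hidx s hs)
      refine image_mono ?_
      intro j hj
      exact lt_trans hj (hm _ ⟨s, hs, rfl⟩)
    have h5 : closure (range t) ⊆ closure (t '' Iio m) :=
      hS3.trans (closure_minimal h4 isClosed_closure)
    exact (ht m).2 (h5 (subset_closure ⟨m, rfl⟩))

/-- If `κ` functions never separate the points of `K`, then we can find two points of `K`,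
outside a given set of size `κ`, which are not separated by `κ` given functions. -/
lemma exists_pair [CompactSpace X] [T2Space X] {K : Set X} {κ : Cardinal.{u}} (hκ : ℵ₀ ≤ κ)
    (hK : ∀ G : Set C(X, ℝ), #G ≤ κ → ¬ Sep G K) (G : Set C(X, ℝ)) (S : Set X)
    (hG : #G ≤ κ) (hS : #S ≤ κ) :
    ∃ x ∈ K, ∃ y ∈ K, x ∉ S ∧ y ∉ S ∧ x ≠ y ∧ ∀ g ∈ G, g x = g y := by
  classical
  by_contra hcon
  push Not at hcon
  -- a partner for every point of `S`
  have h1 : ∀ s : X, ∃ z : X, (∃ y ∈ K, y ∉ S ∧ ∀ g ∈ G, g y = g s) →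
      (z ∈ K ∧ z ∉ S ∧ ∀ g ∈ G, g z = g s) := by
    intro s
    by_cases h : ∃ y ∈ K, y ∉ S ∧ ∀ g ∈ G, g y = g s
    · obtain ⟨y, hy⟩ := h
      exact ⟨y, fun _ => hy⟩
    · exact ⟨s, fun h' => absurd h' h⟩
  choose z hz using h1
  let S' : Set X := S ∪ z '' S
  have hS' : #S' ≤ κ := by
    refine (mk_union_le _ _).trans ?_
    calc #S + #(z '' S) ≤ κ + κ := add_le_add hS (mk_image_le.trans hS)
      _ = κ := add_eq_self hκ
  have h2 : ∀ p : X × X, ∃ h : C(X, ℝ), p.1 ≠ p.2 → h p.1 ≠ h p.2 := by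
    intro p
    by_cases hp : p.1 = p.2
    · exact ⟨0, fun h => absurd hp h⟩
    · obtain ⟨f, hf1, hf2, -⟩ := exists_continuous_zero_one_of_isClosed
        (isClosed_singleton (x := p.1)) (isClosed_singleton (x := p.2))
        (disjoint_singleton.2 hp)
      refine ⟨f, fun _ => ?_⟩
      rw [hf1 rfl, hf2 rfl]
      simp
  choose h hh using h2
  let H : Set C(X, ℝ) := h '' (S' ×ˢ S')
  have hH : #H ≤ κ := by
    refine mk_image_le.trans ?_
    rw [mk_setProd]
    calc #S' * #S' ≤ κ * κ := mul_le_mul' hS' hS'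
      _ = κ := mul_eq_self hκ
  refine hK (G ∪ H) ?_ ?_
  · refine (mk_union_le _ _).trans ?_
    calc #G + #H ≤ κ + κ := add_le_add hG hH
      _ = κ := add_eq_self hκ
  · -- symmetric key claim
    have key : ∀ x ∈ K, ∀ y ∈ K, x ≠ y → x ∈ S → ∃ g ∈ G ∪ H, g x ≠ g y := by
      intro x hx y hy hxy hxS
      by_cases hyS : y ∈ S
      · exact ⟨h (x, y), Or.inr ⟨(x, y), ⟨Or.inl hxS, Or.inl hyS⟩, rfl⟩, hh (x, y) hxy⟩
      · by_cases hall : ∀ g ∈ G, g y = g x
        · obtain ⟨hz1, hz2, hz3⟩ := hz x ⟨y, hy, hyS, hall⟩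
          have hyz : y = z x := by
            by_contra hne
            obtain ⟨g, hg, hgne⟩ := hcon y hy (z x) hz1 hyS hz2 hne
            exact hgne (by rw [hall g hg, hz3 g hg])
          have hyS' : y ∈ S' := Or.inr ⟨x, hxS, hyz.symm⟩
          exact ⟨h (x, y), Or.inr ⟨(x, y), ⟨Or.inl hxS, hyS'⟩, rfl⟩, hh (x, y) hxy⟩
        · push Not at hall
          obtain ⟨g, hg, hgne⟩ := hall
          exact ⟨g, Or.inl hg, hgne.symm⟩
    intro x hx y hy hxy
    by_cases hxS : x ∈ S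
    · exact key x hx y hy hxy hxS
    · by_cases hyS : y ∈ S
      · obtain ⟨g, hg, hgne⟩ := key y hy x hx hxy.symm hyS
        exact ⟨g, hg, hgne.symm⟩
      · obtain ⟨g, hg, hgne⟩ := hcon x hx y hy hxS hyS hxy
        exact ⟨g, Or.inl hg, hgne⟩

/-- On a compact set whose points are separated by a family of functions, a continuous function
is up to `ε` determined by finitely many members of the family. -/
lemma exists_finset_determines {K : Set X} (hK : IsCompact K) {ι : Type v} (e : ι → C(X, ℝ))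
    (he : ∀ x ∈ K, ∀ y ∈ K, x ≠ y → ∃ i, e i x ≠ e i y) (g : C(X, ℝ)) {ε : ℝ} (hε : 0 < ε) :
    ∃ a : Finset ι, ∀ x ∈ K, ∀ y ∈ K, (∀ i ∈ a, e i x = e i y) → |g x - g y| < ε := by
  classical
  have hcl : IsClosed {p : X × X | ε ≤ |g p.1 - g p.2|} :=
    isClosed_le continuous_const (by fun_prop)
  have hcomp : IsCompact ((K ×ˢ K) ∩ {p : X × X | ε ≤ |g p.1 - g p.2|}) :=
    (hK.prod hK).inter_right hcl
  obtain ⟨a, ha⟩ := hcomp.elim_finite_subcover
    (fun i => {p : X × X | e i p.1 ≠ e i p.2})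
    (fun i => isOpen_ne_fun (by fun_prop) (by fun_prop)) (by
      rintro ⟨x, y⟩ ⟨⟨hx, hy⟩, hxy⟩
      have hne : x ≠ y := by
        intro h
        subst h
        simp only [mem_ofPred_eq, sub_self, abs_zero] at hxy
        exact absurd hxy (not_le.2 hε)
      obtain ⟨i, hi⟩ := he x hx y hy hne
      exact mem_iUnion.2 ⟨i, hi⟩)
  refine ⟨a, fun x hx y hy hxy => ?_⟩
  by_contra hcon
  have hmem : (x, y) ∈ (K ×ˢ K) ∩ {p : X × X | ε ≤ |g p.1 - g p.2|} :=
    ⟨⟨hx, hy⟩, not_lt.1 hcon⟩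
  have h1 := ha hmem
  simp only [mem_iUnion] at h1
  obtain ⟨i, hi, hne⟩ := h1
  exact hne (hxy i hi)

end

end Pool.Agent.SplitEberlein
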