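import Pool.Agent.Lib_helper75.Part6

open Set Topology Cardinal

universe u v w

namespace Pool.Agent.SplitEberlein

section

variable {X : Type u} [TopologicalSpace X]

/-- The initial part of a well-ordered set consisting of the elements with at most `κ`
predecessors has more than `κ` elements, if the whole set has. -/
lemma lt_mk_initial {I : Type u} [LinearOrder I] [WellFoundedLT I] {κ : Cardinal.{u}}
    (h2 : κ < #I) : κ < #{j : I | #(Iio j) ≤ κ} := by
  by_contra hcon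
  rw [not_lt] at hcon
  have hne : ∃ m : I, m ∉ {j : I | #(Iio j) ≤ κ} := by
    by_contra h
    push Not at h
    have : {j : I | #(Iio j) ≤ κ} = Set.univ := eq_univ_of_forall h
    rw [this, mk_univ] at hcon
    exact absurd h2 (not_lt.2 hcon)
  obtain ⟨m, hm, hmin⟩ := WellFounded.has_min wellFounded_lt {m : I | m ∉ {j : I | #(Iio j) ≤ κ}} hne
  apply hm
  show #(Iio m) ≤ κ
  refine le_trans (mk_le_mk_of_subset ?_) hcon
  intro j hj
  by_contra h
  exact hmin j h hj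

/-- The diagonal set. -/
lemma Split.exists_diagonal [CompactSpace X] [T2Space X] (hX : Split.{u, w} X) {U : Set X}
    {lam : Cardinal.{u}} (hlam : ℵ₀ < lam)
    (hU : ∀ V ⊆ U, IsOpen V → V.Nonempty → ∀ S : Set X, V ⊆ closure S → lam ≤ #S)
    {I : Type u} [LinearOrder I] [WellFoundedLT I] (hI1 : ∀ i : I, #(Iio i) < lam)
    (hI2 : #I = lam) (V : I → Set X) (hVU : ∀ i, V i ⊆ U) (hV : ∀ i, IsOpen (V i))
    (hVne : ∀ i, (V i).Nonempty) :
    ∃ A : Set X, ∀ ξ : I, ∀ G : Set C(X, ℝ), #G ≤ max #(Iio ξ) ℵ₀ →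
      ∃ x ∈ V ξ, ∃ y ∈ V ξ, x ∈ A ∧ y ∉ A ∧ ∀ g ∈ G, g x = g y := by
  classical
  let κ : I → Cardinal.{u} := fun ξ => max #(Iio ξ) ℵ₀
  have hκ : ∀ ξ, ℵ₀ ≤ κ ξ := fun ξ => le_max_right _ _
  have hκl : ∀ ξ, κ ξ < lam := fun ξ => max_lt (hI1 ξ) hlam
  have hK := fun ξ => hX.exists_K hU (hVU ξ) (hV ξ) (hVne ξ) (hκ ξ) (hκl ξ)
  choose K hKV hKcl hKG hKno using hK
  choose 𝒢 h𝒢 hsep using hKG
  -- enumerate the family
  have hen : ∀ ξ, ∃ e : {j : I | #(Iio j) ≤ κ ξ} → C(X, ℝ), 𝒢 ξ ⊆ range e := by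
    intro ξ
    have h1 : κ ξ < #{j : I | #(Iio j) ≤ κ ξ} := lt_mk_initial (by rw [hI2]; exact hκl ξ)
    have : Nonempty {j : I | #(Iio j) ≤ κ ξ} :=
      mk_ne_zero_iff.1 ((aleph0_pos.trans_le (hκ ξ)).trans h1).ne'
    exact exists_enum (𝒢 ξ) ((h𝒢 ξ).trans (Order.succ_le_of_lt h1))
  choose e he using hen
  -- the selection
  let r : I × I → I × I → Prop := fun a b =>
    (toLex (max a.1 a.2, toLex a) : I ×ₗ (I ×ₗ I)) < toLex (max b.1 b.2, toLex b)
  have hwf : WellFounded r := InvImage.wf (fun a : I × I =>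
    (toLex (max a.1 a.2, toLex a) : I ×ₗ (I ×ₗ I))) wellFounded_lt
  have htri : ∀ a b, r a b ∨ a = b ∨ r b a := by
    intro a b
    rcases lt_trichotomy (toLex (max a.1 a.2, toLex a) : I ×ₗ (I ×ₗ I))
      (toLex (max b.1 b.2, toLex b)) with h | h | h
    · exact Or.inl h
    · right; left
      have := congrArg (fun z : I ×ₗ (I ×ₗ I) => (ofLex (ofLex z).2 : I × I)) h
      simpa using this
    · exact Or.inr (Or.inr h)
  have hrmax : ∀ a b, r b a → max b.1 b.2 ≤ max a.1 a.2 := by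
    intro a b h
    rcases Prod.Lex.lt_iff.1 h with h1 | h1
    · exact h1.le
    · exact h1.1.le
  obtain ⟨⟨x0⟩⟩ : Nonempty (X × X) ∨ IsEmpty I := by
    by_cases h : Nonempty I
    · obtain ⟨i⟩ := h
      obtain ⟨x, _⟩ := hVne i
      exact Or.inl ⟨(x, x)⟩
    · exact Or.inr (not_nonempty_iff.1 h)
  swap
  · exact ⟨∅, fun ξ => isEmptyElim ξ⟩
  have hXX : Nonempty (X × X) := ⟨x0⟩
  obtain ⟨F, hF⟩ := exists_transfinite (I := I × I) r hwf (T := X × X)
    (fun a F t => ∀ ha : #(Iio a.2) ≤ κ a.1,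
      t.1 ∈ K a.1 ∧ t.2 ∈ K a.1 ∧ t.1 ≠ t.2 ∧
      (∀ k : {j : I | #(Iio j) ≤ κ a.1}, (k : I) < a.2 → e a.1 k t.1 = e a.1 k t.2) ∧
      ∀ b, r b a → t.1 ≠ (F b).1 ∧ t.1 ≠ (F b).2 ∧ t.2 ≠ (F b).1 ∧ t.2 ≠ (F b).2) (by
      intro a F F' t hFF h ha
      obtain ⟨h1, h2, h3, h4, h5⟩ := h ha
      refine ⟨h1, h2, h3, h4, fun b hb => ?_⟩
      rw [← hFF b hb]
      exact h5 b hb) (by
      intro a F _
      by_cases ha : #(Iio a.2) ≤ κ a.1
      · -- the previous points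
        have hB : #{b : I × I | r b a} ≤ κ a.1 := by
          have hm : ∀ m : I, #(Iio m) ≤ κ a.1 → #(Iic m) ≤ κ a.1 := by
            intro m hm
            have : Iic m = insert m (Iio m) := by
              ext x
              simp [le_iff_eq_or_lt]
            rw [this]
            refine mk_insert_le.trans ?_
            calc #(Iio m) + 1 ≤ κ a.1 + κ a.1 :=
                  add_le_add hm ((one_le_aleph0).trans (hκ a.1))
              _ = κ a.1 := add_eq_self (hκ a.1)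
          have hmax : #(Iic (max a.1 a.2)) ≤ κ a.1 := by
            rcases max_choice a.1 a.2 with h | h
            · rw [h]
              exact hm _ (le_max_left _ _)
            · rw [h]
              exact hm _ ha
          have hsub : {b : I × I | r b a} ⊆ Iic (max a.1 a.2) ×ˢ Iic (max a.1 a.2) := by
            intro b hb
            have := hrmax a b hb
            exact ⟨(le_max_left _ _).trans this, (le_max_right _ _).trans this⟩
          refine (mk_le_mk_of_subset hsub).trans ?_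
          rw [mk_setProd]
          calc #(Iic (max a.1 a.2)) * #(Iic (max a.1 a.2)) ≤ κ a.1 * κ a.1 :=
                mul_le_mul' hmax hmax
            _ = κ a.1 := mul_eq_self (hκ a.1)
        obtain ⟨x, hx, y, hy, hxS, hyS, hxy, hG⟩ := exists_pair (hκ a.1) (hKno a.1)
          (e a.1 '' {k | (k : I) < a.2})
          ((fun b => (F b).1) '' {b | r b a} ∪ (fun b => (F b).2) '' {b | r b a})
          (by
            refine mk_image_le.trans ?_
            refine le_trans ?_ ha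
            refine mk_le_of_injective (f := fun k => (⟨(k.1 : I), k.2⟩ : Iio a.2)) ?_
            intro k l hkl
            have h1 : ((k.1 : I)) = (l.1 : I) := congrArg (fun z : Iio a.2 => (z : I)) hkl
            exact Subtype.ext (Subtype.ext h1))
          (by
            refine (mk_union_le _ _).trans ?_
            calc _ ≤ κ a.1 + κ a.1 := add_le_add (mk_image_le.trans hB) (mk_image_le.trans hB)
              _ = κ a.1 := add_eq_self (hκ a.1))
        refine ⟨(x, y), fun _ => ⟨hx, hy, hxy, fun k hk => hG _ ⟨k, hk, rfl⟩, fun b hb => ?_⟩⟩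
        refine ⟨fun h => hxS (Or.inl ⟨b, hb, h.symm⟩), fun h => hxS (Or.inr ⟨b, hb, h.symm⟩),
          fun h => hyS (Or.inl ⟨b, hb, h.symm⟩), fun h => hyS (Or.inr ⟨b, hb, h.symm⟩)⟩
      · exact ⟨x0, fun h => absurd h ha⟩)
  refine ⟨{x | ∃ a : I × I, #(Iio a.2) ≤ κ a.1 ∧ x = (F a).1}, ?_⟩
  intro ξ G hG
  have hsmall : ∀ i : {j : I | #(Iio j) ≤ κ ξ}, #(Iio i) ≤ κ ξ := by
    intro i
    have hi : #(Iio (i : I)) ≤ κ ξ := i.2
    refine le_trans ?_ hi
    refine mk_le_of_injective (f := fun k : Iio i => (⟨((k : {j : I | #(Iio j) ≤ κ ξ}) : I),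
      k.2⟩ : Iio (i : I))) ?_
    intro k l hkl
    have h1 : ((k : {j : I | #(Iio j) ≤ κ ξ}) : I) = ((l : {j : I | #(Iio j) ≤ κ ξ}) : I) :=
      congrArg (fun z : Iio (i : I) => (z : I)) hkl
    exact Subtype.ext (Subtype.ext h1)
  have hbig : κ ξ < #{j : I | #(Iio j) ≤ κ ξ} := lt_mk_initial (by rw [hI2]; exact hκl ξ)
  have hdet : ∀ p : G × ℕ, ∃ a : Finset {j : I | #(Iio j) ≤ κ ξ}, ∀ x ∈ K ξ, ∀ y ∈ K ξ,
      (∀ i ∈ a, e ξ i x = e ξ i y) →
        |(p.1 : C(X, ℝ)) x - (p.1 : C(X, ℝ)) y| < 1 / ((p.2 : ℝ) + 1) := by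
    intro p
    refine exists_finset_determines (hKcl ξ).isCompact (e ξ) ?_ p.1 (by positivity)
    intro x hx y hy hxy
    obtain ⟨g, hg, hgne⟩ := hsep ξ x hx y hy hxy
    obtain ⟨i, rfl⟩ := he ξ hg
    exact ⟨i, hgne⟩
  choose a ha using hdet
  have hBcard : #(⋃ p : G × ℕ, (a p : Set {j : I | #(Iio j) ≤ κ ξ})) ≤ κ ξ := by
    refine (mk_iUnion_le _).trans ?_
    have h1 : #(G × ℕ) ≤ κ ξ := by
      rw [mk_prod, lift_id'.{0, u}, mk_nat, lift_aleph0]
      calc #G * ℵ₀ ≤ κ ξ * κ ξ := mul_le_mul' hG (hκ ξ)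
        _ = κ ξ := mul_eq_self (hκ ξ)
    calc _ ≤ κ ξ * κ ξ := by
          refine mul_le_mul' h1 (ciSup_le' fun p => ?_)
          exact (le_aleph0_iff_set_countable.2 (a p).countable_toSet).trans (hκ ξ)
      _ = κ ξ := mul_eq_self (hκ ξ)
  obtain ⟨m, hm⟩ := exists_bound (hκ ξ) hsmall hbig _ hBcard
  obtain ⟨h1, h2, h3, h4, h5⟩ := hF (ξ, (m : I)) m.2
  refine ⟨(F (ξ, (m : I))).1, hKV ξ h1, (F (ξ, (m : I))).2, hKV ξ h2, ⟨(ξ, (m : I)), m.2, rfl⟩,
    ?_, ?_⟩
  · rintro ⟨b, hb, hbeq⟩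
    rcases htri b (ξ, (m : I)) with h | h | h
    · exact (h5 b h).2.2.1 hbeq
    · rw [h] at hbeq
      exact h3 hbeq.symm
    · obtain ⟨-, -, -, -, h5'⟩ := hF b hb
      exact (h5' (ξ, (m : I)) h).2.1 hbeq.symm
  · intro g hg
    have hall : ∀ n : ℕ, |g (F (ξ, (m : I))).1 - g (F (ξ, (m : I))).2| ≤ 1 / ((n : ℝ) + 1) := by
      intro n
      refine (ha (⟨g, hg⟩, n) _ h1 _ h2 ?_).le
      intro i hi
      exact h4 i (hm i (mem_iUnion.2 ⟨(⟨g, hg⟩, n), hi⟩))
    have h6 : |g (F (ξ, (m : I))).1 - g (F (ξ, (m : I))).2| ≤ 0 :=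
      ge_of_tendsto' (tendsto_one_div_add_atTop_nhds_zero_nat (𝕜 := ℝ)) hall
    exact sub_eq_zero.1 (abs_nonpos_iff.1 h6)

end

end Pool.Agent.SplitEberlein
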