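import Pool.Agent.Lib_helper75.Part7

open Set Topology Cardinal

universe u v w

namespace Pool.Agent.SplitEberlein

section

variable {X : Type u} [TopologicalSpace X]

/-- Maximal disjoint families of open sets. -/
lemma exists_maxdisj (U : Set X) (P : Set X → Prop)
    (hP : ∀ V ⊆ U, IsOpen V → V.Nonempty → ∃ W ⊆ V, IsOpen W ∧ W.Nonempty ∧ P W) :
    ∃ 𝒲 : Set (Set X), (∀ W ∈ 𝒲, IsOpen W ∧ W.Nonempty ∧ W ⊆ U ∧ P W) ∧
      𝒲.PairwiseDisjoint id ∧
      ∀ V ⊆ U, IsOpen V → V.Nonempty → ∃ W ∈ 𝒲, (W ∩ V).Nonempty := by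
  classical
  obtain ⟨𝒲, h𝒲⟩ := zorn_subset
    {𝒲 : Set (Set X) | (∀ W ∈ 𝒲, IsOpen W ∧ W.Nonempty ∧ W ⊆ U ∧ P W) ∧
      𝒲.PairwiseDisjoint id} (by
      intro c hc hchain
      refine ⟨⋃₀ c, ⟨?_, ?_⟩, fun s hs => subset_sUnion_of_mem hs⟩
      · rintro W ⟨s, hs, hW⟩
        exact (hc hs).1 W hW
      · rw [pairwiseDisjoint_sUnion hchain.directedOn]
        intro s hs
        exact (hc hs).2)
  refine ⟨𝒲, h𝒲.prop.1, h𝒲.prop.2, ?_⟩
  intro V hVU hV hVne
  by_contra hcon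
  push Not at hcon
  obtain ⟨W, hWV, hW, hWne, hPW⟩ := hP V hVU hV hVne
  have hdisj : ∀ W' ∈ 𝒲, Disjoint W W' := by
    intro W' hW'
    rw [Set.disjoint_left]
    intro x hx hx'
    have := hcon W' hW'
    have h2 : x ∈ W' ∩ V := ⟨hx', hWV hx⟩
    rw [this] at h2
    exact h2
  have hmem : insert W 𝒲 ∈ {𝒲 : Set (Set X) | (∀ W ∈ 𝒲, IsOpen W ∧ W.Nonempty ∧ W ⊆ U ∧ P W) ∧
      𝒲.PairwiseDisjoint id} := by
    refine ⟨?_, ?_⟩
    · rintro W' (rfl | hW')
      · exact ⟨hW, hWne, hWV.trans hVU, hPW⟩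
      · exact h𝒲.prop.1 W' hW'
    · refine h𝒲.prop.2.insert ?_
      intro W' hW' _
      exact hdisj W' hW'
  have hle := h𝒲.le_of_ge hmem (subset_insert W 𝒲)
  have hWin : W ∈ 𝒲 := hle (mem_insert W 𝒲)
  have h1 := hdisj W hWin
  rw [disjoint_self] at h1
  exact hWne.ne_empty h1

/-- `U` has a `σ`-disjoint `π`-base. -/
def SigmaDisjointPiBase (U : Set X) (ℬ : ℕ → Set (Set X)) : Prop :=
  (∀ n, ∀ B ∈ ℬ n, IsOpen B ∧ B.Nonempty ∧ B ⊆ U) ∧ (∀ n, (ℬ n).PairwiseDisjoint id) ∧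
    ∀ V ⊆ U, IsOpen V → V.Nonempty → ∃ n, ∃ B ∈ ℬ n, B ⊆ V

lemma Split.local_pibase [CompactSpace X] [T2Space X] (hX : Split.{u, w} X) {U : Set X}
    (hUo : IsOpen U) (hUne : U.Nonempty) {lam : Cardinal.{u}}
    (hU : ∀ V ⊆ U, IsOpen V → V.Nonempty → ∀ S : Set X, V ⊆ closure S → lam ≤ #S)
    (hS : ∃ S : Set X, #S ≤ lam ∧ U ⊆ closure S) :
    ∃ ℬ : ℕ → Set (Set X), SigmaDisjointPiBase U ℬ := by
  classical
  obtain ⟨S, hSl, hSU⟩ := hS
  rcases le_or_gt lam ℵ₀ with hlam | hlam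
  · -- the separable case
    obtain ⟨G, hG, hsep⟩ := hX.mono le_rfl S (hSl.trans hlam)
    have hJ : Countable (Finset (G × ℚ × ℚ)) := mk_le_aleph0_iff.1 (mk_box_index le_rfl hG)
    obtain ⟨en, hen⟩ := exists_surjective_nat (Finset (G × ℚ × ℚ))
    refine ⟨fun n => {B | B = box G (en n) ∩ U ∧ B.Nonempty}, ?_, ?_, ?_⟩
    · rintro n B ⟨rfl, hB⟩
      exact ⟨(isOpen_box _ _).inter hUo, hB, inter_subset_right⟩
    · rintro n B ⟨rfl, _⟩ B' ⟨rfl, _⟩ hne
      exact absurd rfl hne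
    · intro V hVU hV ⟨x, hx⟩
      obtain ⟨j, hj1, hj2⟩ := box_base isClosed_closure hsep (hSU (hVU hx)) hV hx
      obtain ⟨n, rfl⟩ := hen j
      exact ⟨n, box G (en n) ∩ U, ⟨rfl, x, hj1, hVU hx⟩,
        (inter_subset_inter_right _ hSU).trans hj2⟩
  · -- the nonseparable case
    obtain ⟨G, hG, hsep⟩ := hX.mono hlam.le S hSl
    let I : Type u := lam.ord.ToType
    have hI1 : ∀ i : I, #(Iio i) < lam := fun i => mk_Iio_toType_ord_lt i
    have hI2 : #I = lam := mk_ord_toType lam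
    have hIne : Nonempty I := mk_ne_zero_iff.1 (by rw [hI2]; exact (aleph0_pos.trans hlam).ne')
    obtain ⟨en, hen⟩ := exists_enum (I := I) (Set.univ : Set (Finset (G × ℚ × ℚ)))
      (by rw [mk_univ, hI2]; exact mk_box_index hlam.le hG)
    let V : I → Set X := fun i => if (box G (en i) ∩ U).Nonempty then box G (en i) ∩ U else U
    have hVU : ∀ i, V i ⊆ U := by
      intro i
      simp only [V]
      split_ifs
      · exact inter_subset_right
      · exact subset_rfl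
    have hVo : ∀ i, IsOpen (V i) := by
      intro i
      simp only [V]
      split_ifs
      · exact (isOpen_box _ _).inter hUo
      · exact hUo
    have hVne : ∀ i, (V i).Nonempty := by
      intro i
      simp only [V]
      split_ifs with h
      · exact h
      · exact hUne
    have hVbase : ∀ O ⊆ U, IsOpen O → O.Nonempty → ∃ i, V i ⊆ O := by
      intro O hOU hO ⟨x, hx⟩
      obtain ⟨j, hj1, hj2⟩ := box_base isClosed_closure hsep (hSU (hOU hx)) hO hx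
      obtain ⟨i, rfl⟩ := hen (mem_univ j)
      refine ⟨i, ?_⟩
      have : (box G (en i) ∩ U).Nonempty := ⟨x, hj1, hOU hx⟩
      simp only [V, if_pos this]
      exact (inter_subset_inter_right _ hSU).trans hj2
    obtain ⟨A, hA⟩ := hX.exists_diagonal hlam hU hI1 hI2 V hVU hVo hVne
    obtain ⟨E, _, _, f, hf, hfA⟩ := hX A
    have h𝒲 := fun n : ℕ => exists_maxdisj U
      (fun W => ∀ x ∈ W, ∀ y ∈ W, ‖f x - f y‖ ≤ 1 / ((n : ℝ) + 1))
      (fun V _ hV hVne => hX.fragment hf hV hVne (by positivity))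
    choose 𝒲 h𝒲1 h𝒲2 h𝒲3 using h𝒲
    -- the candidates for `V ξ`
    let C : I → Set (ℕ × Set X) := fun ξ => {p | p.2 ∈ 𝒲 p.1 ∧ (p.2 ∩ V ξ).Nonempty}
    have hC : ∀ ξ, max #(Iio ξ) ℵ₀ < #(C ξ) := by
      intro ξ
      by_contra hcon
      rw [not_lt] at hcon
      have hq : ∀ p : C ξ, ∃ x, x ∈ p.1.2 ∩ V ξ := fun p => p.2.2
      choose q hq using hq
      have hP : #(range q) ≤ max #(Iio ξ) ℵ₀ := mk_range_le.trans hcon
      -- density
      have hdense : V ξ ⊆ closure (V ξ ∩ ⋂ n, ⋃₀ (𝒲 n)) := by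
        have hD : Dense (⋂ n, (⋃₀ (𝒲 n) ∪ (closure U)ᶜ)) := by
          refine dense_iInter_of_isOpen_nat ?_ ?_
          · intro n
            exact (isOpen_sUnion fun W hW => (h𝒲1 n W hW).1).union isClosed_closure.isOpen_compl
          · intro n
            rw [dense_iff_inter_open]
            intro O hO hOne
            by_cases hOU : (O ∩ U).Nonempty
            · obtain ⟨W, hW, x, hxW, hxO, hxU⟩ :=
                h𝒲3 n (O ∩ U) inter_subset_right (hO.inter hUo) hOU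
              exact ⟨x, hxO, Or.inl ⟨W, hW, hxW⟩⟩
            · obtain ⟨x, hx⟩ := hOne
              refine ⟨x, hx, Or.inr ?_⟩
              intro hxU
              obtain ⟨y, hyO, hyU⟩ := mem_closure_iff.1 hxU O hO hx
              exact hOU ⟨y, hyO, hyU⟩
        refine (hD.open_subset_closure_inter (hVo ξ)).trans (closure_mono ?_)
        rintro x ⟨hxV, hx⟩
        refine ⟨hxV, ?_⟩
        rw [mem_iInter] at hx ⊢
        intro n
        rcases hx n with h | h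
        · exact h
        · exact absurd (subset_closure (hVU ξ hxV)) h
      have hclose : ∀ x ∈ V ξ ∩ ⋂ n, ⋃₀ (𝒲 n), f x ∈ closure (f '' range q) := by
        rintro x ⟨hxV, hx⟩
        rw [Metric.mem_closure_iff]
        intro ε hε
        obtain ⟨n, hn⟩ := exists_nat_one_div_lt hε
        obtain ⟨W, hW, hxW⟩ := mem_iInter.1 hx n
        have hmem : ((n, W) : ℕ × Set X) ∈ C ξ := ⟨hW, x, hxW, hxV⟩
        refine ⟨f (q ⟨(n, W), hmem⟩), ⟨_, ⟨_, rfl⟩, rfl⟩, ?_⟩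
        rw [dist_eq_norm]
        exact ((h𝒲1 n W hW).2.2.2 x hxW _ (hq ⟨(n, W), hmem⟩).1).trans_lt hn
      have hspan : ∀ x ∈ V ξ, f x ∈ closure (Submodule.span ℝ (f '' range q) : Set E) := by
        intro x hx
        have h1 := hf.mem_closure_span (hdense hx)
        have h2 : Submodule.span ℝ (f '' (V ξ ∩ ⋂ n, ⋃₀ (𝒲 n))) ≤
            (Submodule.span ℝ (f '' range q)).topologicalClosure := by
          rw [Submodule.span_le]
          rintro _ ⟨y, hy, rfl⟩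
          exact closure_mono Submodule.subset_span (hclose y hy)
        exact closure_minimal h2 isClosed_closure h1
      obtain ⟨G', hG', hG'sep⟩ := hf.exists_family (le_max_right _ _) (range q) (V ξ) hP hspan
      obtain ⟨x, hx, y, hy, hxA, hyA, hxy⟩ := hA ξ G' hG'
      by_cases hfxy : f x = f y
      · exact hyA (hfA x y hfxy hxA)
      · obtain ⟨g, hg, hgne⟩ := hG'sep x hx y hy hfxy
        exact hgne (hxy g hg)
    -- distinct representatives
    have hT : Nonempty (ℕ × Set X) := ⟨(0, ∅)⟩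
    obtain ⟨c, hc⟩ := exists_transfinite (I := I) (fun i j => i < j) wellFounded_lt
      (T := ℕ × Set X) (fun ξ F t => t ∈ C ξ ∧ ∀ η < ξ, t ≠ F η) (by
        intro i F F' t hFF ⟨h1, h2⟩
        refine ⟨h1, fun η hη => ?_⟩
        rw [← hFF η hη]
        exact h2 η hη) (by
        intro i F _
        by_contra hcon
        push Not at hcon
        have hsub : C i ⊆ F '' Iio i := by
          intro t ht
          obtain ⟨η, hη, h⟩ := hcon t ht
          exact ⟨η, hη, h.symm⟩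
        have h1 := (mk_le_mk_of_subset hsub).trans mk_image_le
        exact absurd ((le_max_left _ _).trans_lt (hC i)) (not_lt.2 h1))
    have hcinj : ∀ ξ η, ξ ≠ η → c ξ ≠ c η := by
      intro ξ η hne
      rcases lt_or_gt_of_ne hne with h | h
      · exact ((hc η).2 ξ h).symm
      · exact (hc ξ).2 η h
    refine ⟨fun n => {B | ∃ ξ, (c ξ).1 = n ∧ B = (c ξ).2 ∩ V ξ}, ?_, ?_, ?_⟩
    · rintro n B ⟨ξ, rfl, rfl⟩
      exact ⟨(h𝒲1 _ _ (hc ξ).1.1).1.inter (hVo ξ), (hc ξ).1.2,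
        inter_subset_right.trans (hVU ξ)⟩
    · rintro n B ⟨ξ, hξ, rfl⟩ B' ⟨η, hη, rfl⟩ hne
      have hne' : ξ ≠ η := by
        rintro rfl
        exact hne rfl
      have h1 : (c ξ).2 ≠ (c η).2 := by
        intro h
        exact hcinj ξ η hne' (Prod.ext (hξ.trans hη.symm) h)
      have h2 : (c ξ).2 ∈ 𝒲 n := by rw [← hξ]; exact (hc ξ).1.1
      have h3 : (c η).2 ∈ 𝒲 n := by rw [← hη]; exact (hc η).1.1
      exact (h𝒲2 n h2 h3 h1).mono inter_subset_left inter_subset_left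
    · intro O hOU hO hOne
      obtain ⟨ξ, hξ⟩ := hVbase O hOU hO hOne
      exact ⟨(c ξ).1, _, ⟨ξ, rfl, rfl⟩, inter_subset_right.trans hξ⟩

/-- Every nonempty open set contains a nonempty open set of homogeneous density. -/
lemma exists_homogeneous {V : Set X} (hV : IsOpen V) (hVne : V.Nonempty) :
    ∃ U ⊆ V, IsOpen U ∧ U.Nonempty ∧ ∃ lam : Cardinal.{u},
      (∀ V ⊆ U, IsOpen V → V.Nonempty → ∀ S : Set X, V ⊆ closure S → lam ≤ #S) ∧
      ∃ S : Set X, #S ≤ lam ∧ U ⊆ closure S := by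
  classical
  let 𝒞 : Set Cardinal.{u} := {c | ∃ U ⊆ V, IsOpen U ∧ U.Nonempty ∧
    ∃ S : Set X, #S = c ∧ U ⊆ closure S}
  have hne : 𝒞.Nonempty := ⟨#V, V, subset_rfl, hV, hVne, V, rfl, subset_closure⟩
  obtain ⟨lam, ⟨U, hUV, hU, hUne, S, hS, hSU⟩, hmin⟩ :=
    WellFounded.has_min (wellFounded_lt (α := Cardinal.{u})) 𝒞 hne
  refine ⟨U, hUV, hU, hUne, lam, ?_, S, hS.le, hSU⟩
  intro W hWU hW hWne T hT
  exact not_lt.1 (hmin #T ⟨W, hWU.trans hUV, hW, hWne, T, rfl, hT⟩)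

/-- The whole space has a `σ`-disjoint `π`-base. -/
lemma Split.exists_pibase [CompactSpace X] [T2Space X] (hX : Split.{u, w} X) :
    ∃ ℬ : ℕ → Set (Set X), SigmaDisjointPiBase (Set.univ : Set X) ℬ := by
  classical
  obtain ⟨𝒰, h𝒰1, h𝒰2, h𝒰3⟩ := exists_maxdisj (Set.univ : Set X)
    (fun W => ∃ ℬ : ℕ → Set (Set X), SigmaDisjointPiBase W ℬ) (by
      intro V _ hV hVne
      obtain ⟨U, hUV, hU, hUne, lam, h1, h2⟩ := exists_homogeneous hV hVne
      exact ⟨U, hUV, hU, hUne, hX.local_pibase hU hUne h1 h2⟩)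
  have hℬ : ∀ W : Set X, ∃ ℬ : ℕ → Set (Set X), W ∈ 𝒰 → SigmaDisjointPiBase W ℬ := by
    intro W
    by_cases hW : W ∈ 𝒰
    · obtain ⟨ℬ, h⟩ := (h𝒰1 W hW).2.2.2
      exact ⟨ℬ, fun _ => h⟩
    · exact ⟨fun _ => ∅, fun h => absurd h hW⟩
  choose ℬ hℬ using hℬ
  refine ⟨fun n => {B | ∃ W ∈ 𝒰, B ∈ ℬ W n}, ?_, ?_, ?_⟩
  · rintro n B ⟨W, hW, hB⟩
    obtain ⟨h1, h2, _⟩ := (hℬ W hW).1 n B hB
    exact ⟨h1, h2, subset_univ _⟩
  · rintro n B ⟨W, hW, hB⟩ B' ⟨W', hW', hB'⟩ hne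
    by_cases hWW : W = W'
    · subst hWW
      exact (hℬ W hW).2.1 n hB hB' hne
    · exact (h𝒰2 hW hW' hWW).mono ((hℬ W hW).1 n B hB).2.2 ((hℬ W' hW').1 n B' hB').2.2
  · intro V _ hV hVne
    obtain ⟨W, hW, hWV⟩ := h𝒰3 V (subset_univ _) hV hVne
    obtain ⟨n, B, hB, hBV⟩ := (hℬ W hW).2.2 (W ∩ V) inter_subset_left
      ((h𝒰1 W hW).1.inter hV) hWV
    exact ⟨n, B, ⟨W, hW, hB⟩, hBV.trans inter_subset_right⟩

end

end Pool.Agent.SplitEberlein
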