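import Pool.Agent.Lib_helper75.Part8

open Set Topology Cardinal

universe u v w

namespace Pool.Agent.SplitEberlein

section

variable {X : Type u} [TopologicalSpace X]

lemma GPt.base [CompactSpace X] {x : X} (hx : GPt x) :
    ∃ O : ℕ → Set X, (∀ n, IsOpen (O n)) ∧ (∀ n, x ∈ O n) ∧
      ∀ V, IsOpen V → x ∈ V → ∃ n, ∀ m, n ≤ m → O m ⊆ V := by
  obtain ⟨g, hg⟩ := hx
  let O : ℕ → Set X := fun n => ⋂ i ∈ Finset.range (n + 1), {y | |g i y - g i x| < 1 / ((n : ℝ) + 1)}
  let C : ℕ → Set X := fun n => ⋂ i ∈ Finset.range (n + 1), {y | |g i y - g i x| ≤ 1 / ((n : ℝ) + 1)}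
  have hOC : ∀ n, O n ⊆ C n := by
    intro n y hy
    simp only [O, C, mem_iInter, mem_ofPred_eq] at hy ⊢
    exact fun i hi => (hy i hi).le
  have hCanti : ∀ m n, n ≤ m → C m ⊆ C n := by
    intro m n hnm y hy
    simp only [C, mem_iInter, mem_ofPred_eq, Finset.mem_range] at hy ⊢
    intro i hi
    refine (hy i (by omega)).trans ?_
    have : (n : ℝ) ≤ m := by exact_mod_cast hnm
    gcongr
  refine ⟨O, ?_, ?_, ?_⟩
  · intro n
    refine isOpen_biInter_finset fun i _ => ?_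
    exact isOpen_lt (by fun_prop) continuous_const
  · intro n
    simp only [O, mem_iInter, mem_ofPred_eq, sub_self, abs_zero]
    intro i _
    positivity
  · intro V hV hxV
    obtain ⟨n, hn⟩ := exists_subset_nhds_of_compactSpace (V := C) (U := V)
      (by
        intro m n
        refine ⟨max m n, hCanti _ _ (le_max_left _ _), hCanti _ _ (le_max_right _ _)⟩)
      (by
        intro n
        refine isClosed_biInter fun i _ => ?_
        exact isClosed_le (by fun_prop) continuous_const)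
      (by
        intro y hy
        have hyx : y = x := by
          by_contra hne
          obtain ⟨i, hi⟩ := hg y hne
          have h1 : |g i y - g i x| ≤ 0 := by
            have h2 : ∀ n : ℕ, |g i y - g i x| ≤ 1 / (((n + i : ℕ) : ℝ) + 1) := by
              intro n
              have h3 := mem_iInter.1 hy (n + i)
              simp only [C, mem_iInter, mem_ofPred_eq, Finset.mem_range] at h3
              exact h3 i (by omega)
            have h4 : Filter.Tendsto (fun n : ℕ => 1 / (((n + i : ℕ) : ℝ) + 1)) Filter.atTop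
                (𝓝 0) := (tendsto_one_div_add_atTop_nhds_zero_nat (𝕜 := ℝ)).comp
              (Filter.tendsto_add_atTop_nat i)
            exact ge_of_tendsto' h4 h2
          exact hi (sub_eq_zero.1 (abs_nonpos_iff.1 h1))
        rw [hyx]
        exact hV.mem_nhds hxV)
    exact ⟨n, fun m hm => (hOC m).trans ((hCanti m n hm).trans hn)⟩

/-- A nonempty open set can be shrunk so that it decides the first `n` disjoint families. -/
lemma exists_decide {ℬ : ℕ → Set (Set X)} (hℬ : SigmaDisjointPiBase (Set.univ : Set X) ℬ)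
    (n : ℕ) : ∀ V : Set X, IsOpen V → V.Nonempty → ∃ W ⊆ V, IsOpen W ∧ W.Nonempty ∧
      ∀ k < n, (∃ B ∈ ℬ k, W ⊆ B) ∨ ∀ B ∈ ℬ k, Disjoint W B := by
  induction n with
  | zero => exact fun V hV hVne => ⟨V, subset_rfl, hV, hVne, fun k hk => absurd hk (by omega)⟩
  | succ n ih =>
    intro V hV hVne
    obtain ⟨W, hWV, hW, hWne, hdec⟩ := ih V hV hVne
    by_cases h : ∃ B ∈ ℬ n, (W ∩ B).Nonempty
    · obtain ⟨B, hB, hWB⟩ := h
      refine ⟨W ∩ B, inter_subset_left.trans hWV, hW.inter (hℬ.1 n B hB).1, hWB, ?_⟩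
      intro k hk
      rcases Nat.lt_succ_iff_lt_or_eq.1 hk with hk | rfl
      · rcases hdec k hk with ⟨B', hB', h1⟩ | h1
        · exact Or.inl ⟨B', hB', inter_subset_left.trans h1⟩
        · exact Or.inr fun B' hB' => (h1 B' hB').mono_left inter_subset_left
      · exact Or.inl ⟨B, hB, inter_subset_right⟩
    · push Not at h
      refine ⟨W, hWV, hW, hWne, ?_⟩
      intro k hk
      rcases Nat.lt_succ_iff_lt_or_eq.1 hk with hk | rfl
      · exact hdec k hk
      · exact Or.inr fun B hB => Set.disjoint_iff_inter_eq_empty.2 (h B hB)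

/-- A compact Hausdorff space with a `σ`-disjoint `π`-base and a dense set of `G_δ` points has a
dense metrizable subspace. -/
theorem exists_dense_metrizable [CompactSpace X] [T2Space X] {ℬ : ℕ → Set (Set X)}
    (hℬ : SigmaDisjointPiBase (Set.univ : Set X) ℬ)
    (hG : ∀ O : Set X, IsOpen O → O.Nonempty → ∃ x ∈ O, GPt x) :
    ∃ D : Set X, Dense D ∧ TopologicalSpace.MetrizableSpace D := by
  classical
  rcases isEmpty_or_nonempty X with hempty | hne
  · refine ⟨Set.univ, dense_univ, ?_⟩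
    have : DiscreteTopology (Set.univ : Set X) := inferInstance
    infer_instance
  -- choice functions
  have hz : ∀ W : Set X, ∃ z : X, IsOpen W → W.Nonempty → z ∈ W ∧ GPt z := by
    intro W
    by_cases h : IsOpen W ∧ W.Nonempty
    · obtain ⟨x, hx⟩ := hG W h.1 h.2
      exact ⟨x, fun _ _ => hx⟩
    · exact ⟨Classical.arbitrary X, fun h1 h2 => absurd ⟨h1, h2⟩ h⟩
  choose zc hzc using hz
  have hO : ∀ z : X, ∃ O : ℕ → Set X, GPt z → (∀ n, IsOpen (O n)) ∧ (∀ n, z ∈ O n) ∧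
      ∀ V, IsOpen V → z ∈ V → ∃ n, ∀ m, n ≤ m → O m ⊆ V := by
    intro z
    by_cases h : GPt z
    · obtain ⟨O, hO⟩ := h.base
      exact ⟨O, fun _ => hO⟩
    · exact ⟨fun _ => ∅, fun h' => absurd h' h⟩
  choose Ob hOb using hO
  have hch : ∀ (n : ℕ) (t : Set X × X), ∃ 𝒲 : Set (Set X),
      (∀ W ∈ 𝒲, IsOpen W ∧ W.Nonempty ∧ W ⊆ t.1 \ closure (t.1 ∩ Ob t.2 n) ∧
        ∀ k < n + 1, (∃ B ∈ ℬ k, W ⊆ B) ∨ ∀ B ∈ ℬ k, Disjoint W B) ∧
      𝒲.PairwiseDisjoint id ∧
      ∀ V ⊆ t.1 \ closure (t.1 ∩ Ob t.2 n), IsOpen V → V.Nonempty → ∃ W ∈ 𝒲, (W ∩ V).Nonempty :=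
    fun n t => exists_maxdisj _ _ (fun V _ hV hVne => exists_decide hℬ (n + 1) V hV hVne)
  choose ch hch1 hch2 hch3 using hch
  let child : ℕ → Set X × X → Set (Set X × X) := fun n t =>
    {s | s = (t.1 ∩ Ob t.2 n, t.2) ∨ ∃ W ∈ ch n t, s = (W, zc W)}
  let T : ℕ → Set (Set X × X) := fun n =>
    Nat.rec {((Set.univ : Set X), zc Set.univ)} (fun n S => ⋃ t ∈ S, child n t) n
  have hT0 : T 0 = {((Set.univ : Set X), zc Set.univ)} := rfl
  have hTs : ∀ n, T (n + 1) = ⋃ t ∈ T n, child n t := fun n => rfl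
  -- (P1)
  have P1 : ∀ n, ∀ t ∈ T n, IsOpen t.1 ∧ t.2 ∈ t.1 ∧ GPt t.2 := by
    intro n
    induction n with
    | zero =>
      intro t ht
      rw [hT0, mem_singleton_iff] at ht
      subst ht
      exact ⟨isOpen_univ, mem_univ _, (hzc Set.univ isOpen_univ univ_nonempty).2⟩
    | succ n ih =>
      intro s hs
      rw [hTs] at hs
      simp only [mem_iUnion] at hs
      obtain ⟨t, ht, hst⟩ := hs
      obtain ⟨h1, h2, h3⟩ := ih t ht
      rcases hst with rfl | ⟨W, hW, rfl⟩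
      · exact ⟨h1.inter ((hOb t.2 h3).1 n), ⟨h2, (hOb t.2 h3).2.1 n⟩, h3⟩
      · obtain ⟨h4, h5, -, -⟩ := hch1 n t W hW
        exact ⟨h4, (hzc W h4 h5).1, (hzc W h4 h5).2⟩
  have hchild_sub : ∀ n t s, s ∈ child n t → s.1 ⊆ t.1 := by
    rintro n t s (rfl | ⟨W, hW, rfl⟩)
    · exact inter_subset_left
    · exact (hch1 n t W hW).2.2.1.trans sdiff_subset
  -- (P2)
  have P2 : ∀ n, ∀ t ∈ T n, ∀ t' ∈ T n, t ≠ t' → Disjoint t.1 t'.1 := by
    intro n
    induction n with
    | zero =>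
      intro t ht t' ht' hne
      rw [hT0, mem_singleton_iff] at ht ht'
      exact absurd (ht.trans ht'.symm) hne
    | succ n ih =>
      intro s hs s' hs' hne
      rw [hTs] at hs hs'
      simp only [mem_iUnion] at hs hs'
      obtain ⟨t, ht, hst⟩ := hs
      obtain ⟨t', ht', hst'⟩ := hs'
      by_cases htt : t = t'
      · subst htt
        have hspecial : ∀ W ∈ ch n t, Disjoint (t.1 ∩ Ob t.2 n) W := by
          intro W hW
          rw [Set.disjoint_left]
          intro x hx hxW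
          exact ((hch1 n t W hW).2.2.1 hxW).2 (subset_closure hx)
        rcases hst with rfl | ⟨W, hW, rfl⟩
        · rcases hst' with rfl | ⟨W', hW', rfl⟩
          · exact absurd rfl hne
          · exact hspecial W' hW'
        · rcases hst' with rfl | ⟨W', hW', rfl⟩
          · exact (hspecial W hW).symm
          · refine hch2 n t hW hW' ?_
            rintro rfl
            exact hne rfl
      · exact (ih t ht t' ht' htt).mono (hchild_sub n t s hst) (hchild_sub n t' s' hst')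
  -- (P3)
  have P3 : ∀ n, ∀ V : Set X, IsOpen V → V.Nonempty → ∃ t ∈ T n, (t.1 ∩ V).Nonempty := by
    intro n
    induction n with
    | zero =>
      intro V _ hVne
      refine ⟨_, mem_singleton _, ?_⟩
      simpa using hVne
    | succ n ih =>
      intro V hV hVne
      obtain ⟨t, ht, htV⟩ := ih V hV hVne
      have ht1 := (P1 n t ht).1
      by_cases h : ((t.1 ∩ Ob t.2 n) ∩ V).Nonempty
      · refine ⟨(t.1 ∩ Ob t.2 n, t.2), ?_, h⟩
        rw [hTs]
        exact mem_biUnion ht (Or.inl rfl)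
      · have hsub : t.1 ∩ V ⊆ t.1 \ closure (t.1 ∩ Ob t.2 n) := by
          rintro x ⟨hxt, hxV⟩
          refine ⟨hxt, fun hxc => ?_⟩
          obtain ⟨y, hyV, hy⟩ := mem_closure_iff.1 hxc V hV hxV
          exact h ⟨y, hy, hyV⟩
        obtain ⟨W, hW, x, hxW, -, hxV⟩ := hch3 n t (t.1 ∩ V) hsub (ht1.inter hV) htV
        refine ⟨(W, zc W), ?_, x, hxW, hxV⟩
        rw [hTs]
        exact mem_biUnion ht (Or.inr ⟨W, hW, rfl⟩)
  -- (P4)
  have P4 : ∀ n, ∀ t ∈ T n, (t.1 ∩ Ob t.2 n, t.2) ∈ T (n + 1) := by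
    intro n t ht
    rw [hTs]
    exact mem_biUnion ht (Or.inl rfl)
  -- (P5)
  have P5 : ∀ n, ∀ s ∈ T (n + 1), ∃ t ∈ T n, s.1 ⊆ t.1 ∧ (s.2 = t.2 ∨
      ∀ k < n + 1, (∃ B ∈ ℬ k, s.1 ⊆ B) ∨ ∀ B ∈ ℬ k, Disjoint s.1 B) := by
    intro n s hs
    rw [hTs] at hs
    simp only [mem_iUnion] at hs
    obtain ⟨t, ht, hst⟩ := hs
    refine ⟨t, ht, hchild_sub n t s hst, ?_⟩
    rcases hst with rfl | ⟨W, hW, rfl⟩
    · exact Or.inl rfl
    · exact Or.inr (hch1 n t W hW).2.2.2
  -- ancestors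
  have anc : ∀ n m, n ≤ m → ∀ s ∈ T m, ∃ t ∈ T n, s.1 ⊆ t.1 := by
    intro n m hnm
    induction m, hnm using Nat.le_induction with
    | base => exact fun s hs => ⟨s, hs, subset_rfl⟩
    | succ m _ ih =>
      intro s hs
      obtain ⟨t, ht, hst, -⟩ := P5 m s hs
      obtain ⟨r, hr, htr⟩ := ih t ht
      exact ⟨r, hr, hst.trans htr⟩
  -- uniqueness
  have uniq : ∀ n, ∀ t ∈ T n, ∀ t' ∈ T n, ∀ x, x ∈ t.1 → x ∈ t'.1 → t = t' := by
    intro n t ht t' ht' x hx hx'
    by_contra hne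
    exact (Set.disjoint_left.1 (P2 n t ht t' ht' hne)) hx hx'
  -- the path of a point
  have path : ∀ n z, (∃ W, (W, z) ∈ T n) → ∀ m, n ≤ m → ∃ W, (W, z) ∈ T m := by
    intro n z hz m hnm
    induction m, hnm using Nat.le_induction with
    | base => exact hz
    | succ m _ ih =>
      obtain ⟨W, hW⟩ := ih
      exact ⟨_, P4 m _ hW⟩
  have path' : ∀ n z, (∃ W, (W, z) ∈ T n) → ∀ m, n ≤ m →
      ∃ W, (W, z) ∈ T (m + 1) ∧ W ⊆ Ob z m := by
    intro n z hz m hnm
    obtain ⟨W, hW⟩ := path n z hz m hnm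
    exact ⟨_, P4 m _ hW, inter_subset_right⟩
  let D : Set X := {z | ∃ n, ∃ W, (W, z) ∈ T n}
  -- density
  have hdense : Dense D := by
    rw [dense_iff_inter_open]
    intro V hV hVne
    obtain ⟨k, B, hB, hBV⟩ := hℬ.2.2 V (subset_univ _) hV hVne
    obtain ⟨hBo, hBne, -⟩ := hℬ.1 k B hB
    suffices h : (B ∩ D).Nonempty by
      obtain ⟨x, hx1, hx2⟩ := h
      exact ⟨x, hBV hx1, hx2⟩
    by_contra hcon
    have hBD : ∀ z ∈ B, z ∉ D := fun z hz hz' => hcon ⟨z, hz, hz'⟩
    obtain ⟨t, ht, htB⟩ := P3 k B hBo hBne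
    have claim : ∀ n, k ≤ n → ∀ s ∈ T n, (s.1 ∩ t.1).Nonempty → (s.1 ∩ B).Nonempty →
        s.2 = t.2 := by
      intro n hkn
      induction n, hkn using Nat.le_induction with
      | base =>
        intro s hs ⟨x, hx1, hx2⟩ _
        rw [uniq k s hs t ht x hx1 hx2]
      | succ n hn ih =>
        intro s hs ⟨x, hx1, hx2⟩ ⟨y, hy1, hy2⟩
        obtain ⟨r, hr, hsr, h | h⟩ := P5 n s hs
        · rw [h]
          exact ih r hr ⟨x, hsr hx1, hx2⟩ ⟨y, hsr hy1, hy2⟩
        · exfalso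
          rcases h k (by omega) with ⟨B', hB', hsB'⟩ | h'
          · have hBB' : B = B' := by
              by_contra hne
              exact (Set.disjoint_left.1 (hℬ.2.1 k hB hB' hne)) hy2 (hsB' hy1)
            subst hBB'
            exact hBD s.2 (hsB' (P1 (n + 1) s hs).2.1) ⟨n + 1, s.1, hs⟩
          · exact (Set.disjoint_left.1 (h' B hB)) hy1 hy2
    -- the point `t.2` is not in `B`
    have htD : t.2 ∈ D := ⟨k, t.1, ht⟩
    have htB' : t.2 ∉ B := fun h => hBD t.2 h htD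
    obtain ⟨b, hbt, hbB⟩ := htB
    have hbne : b ≠ t.2 := fun h => htB' (h ▸ hbB)
    obtain ⟨V1, V2, hV1, hV2, hbV1, htV2, hdisj⟩ := t2_separation hbne
    obtain ⟨ht1, ht2, ht3⟩ := P1 k t ht
    obtain ⟨n, hn⟩ := (hOb t.2 ht3).2.2 V2 hV2 htV2
    obtain ⟨W, hW, hWO⟩ := path' k t.2 ⟨t.1, ht⟩ (max k n) (le_max_left _ _)
    obtain ⟨s, hs, x, hxs, ⟨hxV1, hxt⟩, hxB⟩ := P3 (max k n + 1) ((V1 ∩ t.1) ∩ B)
      ((hV1.inter ht1).inter hBo) ⟨b, ⟨hbV1, hbt⟩, hbB⟩
    have h1 := claim (max k n + 1) (by omega) s hs ⟨x, hxs, hxt⟩ ⟨x, hxs, hxB⟩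
    have h2 : s = (W, t.2) := by
      refine uniq (max k n + 1) s hs _ hW t.2 ?_ (P1 (max k n + 1) _ hW).2.1
      rw [← h1]
      exact (P1 (max k n + 1) s hs).2.1
    rw [h2] at hxs
    exact (Set.disjoint_left.1 hdisj) hxV1 (hn (max k n) (le_max_right _ _) (hWO hxs))
  refine ⟨D, hdense, ?_⟩
  -- the code of a point of `D`
  have hcode : ∀ z : D, ∀ n, ∃ t ∈ T n, (z : X) ∈ t.1 := by
    rintro ⟨z, n0, W0, hz⟩ n
    rcases le_total n n0 with h | h
    · obtain ⟨t, ht, hsub⟩ := anc n n0 h _ hz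
      exact ⟨t, ht, hsub (P1 n0 _ hz).2.1⟩
    · obtain ⟨W, hW⟩ := path n0 z ⟨W0, hz⟩ n h
      exact ⟨_, hW, (P1 n _ hW).2.1⟩
  choose c hc1 hc2 using hcode
  let _ : TopologicalSpace (Set X × X) := ⊥
  have hdisc : DiscreteTopology (Set X × X) := ⟨rfl⟩
  have hind : IsInducing c := by
    rw [isInducing_iff_nhds]
    intro z
    apply le_antisymm
    · rw [← Filter.tendsto_iff_comap]
      refine tendsto_pi_nhds.2 fun n => ?_
      rw [nhds_discrete (Set X × X), Filter.tendsto_pure]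
      have h1 : IsOpen {y : D | (y : X) ∈ (c z n).1} :=
        (P1 n _ (hc1 z n)).1.preimage continuous_subtype_val
      filter_upwards [h1.mem_nhds (hc2 z n)] with y hy
      exact uniq n _ (hc1 y n) _ (hc1 z n) y (hc2 y n) hy
    · intro S hS
      obtain ⟨V, hVS, hV, hzV⟩ := mem_nhds_iff.1 hS
      obtain ⟨V', hV', rfl⟩ := isOpen_induced_iff.1 hV
      obtain ⟨z, n0, W0, hz⟩ := z
      have hGz : GPt z := (P1 n0 _ hz).2.2
      obtain ⟨n, hn⟩ := (hOb z hGz).2.2 V' hV' hzV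
      obtain ⟨W, hW, hWO⟩ := path' n0 z ⟨W0, hz⟩ (max n0 n) (le_max_left _ _)
      rw [Filter.mem_comap]
      refine ⟨{w | w (max n0 n + 1) = c ⟨z, n0, W0, hz⟩ (max n0 n + 1)}, ?_, ?_⟩
      · refine IsOpen.mem_nhds ?_ rfl
        have hcont : Continuous (fun w : ℕ → Set X × X => w (max n0 n + 1)) :=
          continuous_apply (max n0 n + 1)
        exact (isOpen_discrete {c ⟨z, n0, W0, hz⟩ (max n0 n + 1)}).preimage hcont
      · intro y hy
        apply hVS
        have h2 : c ⟨z, n0, W0, hz⟩ (max n0 n + 1) = (W, z) :=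
          uniq (max n0 n + 1) _ (hc1 ⟨z, n0, W0, hz⟩ (max n0 n + 1)) _ hW z
            (hc2 ⟨z, n0, W0, hz⟩ (max n0 n + 1)) (P1 (max n0 n + 1) _ hW).2.1
        have h3 : c y (max n0 n + 1) = (W, z) := by
          rw [← h2]
          exact hy
        have h4 : (y : X) ∈ W := by
          have := hc2 y (max n0 n + 1)
          rw [h3] at this
          exact this
        exact hn (max n0 n) (le_max_right _ _) (hWO h4)
  exact hind.isEmbedding.metrizableSpace

/-- The main theorem in terms of weakly continuous maps. -/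
theorem Split.dense_metrizable [CompactSpace X] [T2Space X] (hX : Split.{u, w} X) :
    ∃ D : Set X, Dense D ∧ TopologicalSpace.MetrizableSpace D := by
  obtain ⟨ℬ, hℬ⟩ := hX.exists_pibase
  exact exists_dense_metrizable hℬ (fun O hO hne => hX.exists_gpt hO hne)

end

end Pool.Agent.SplitEberlein
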